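import Mathlib

namespace Pool.Agent.P.MP_488119_gt

/-- Letter codes. -/
def dec (k : ℕ) : Bool × Bool := (k / 2 == 1, k % 2 == 1)

/-- Packed transition table of a Schreier graph with 48 vertices. -/
def tab : ℕ :=
  37943731227695558234028048033026722780669358846060194868433799303791982921126322928522918854789882629564529078691839625668110469970614094551811932076320447691400751016910599825768010690152116973097841764442236929006895753166474136162166425080702444092555576807225997336683675591758707236340120485034506905861798632264523738832521738477650548633665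

/-- One step in the Schreier graph. -/
def nx (g : Fin 48) (l : Bool × Bool) : Fin 48 :=
  Fin.ofNat 48 ((tab >>> (6 * (4 * g.val + 2 * l.1.toNat + l.2.toNat))) % 64)

/-- Codes of the transversal words. -/
def Tl : List (List ℕ) :=
  [[], [1], [3], [2],
   [1,3], [1,2], [3,1], [3,3],
   [2,1], [2,2], [1,3,1], [1,3,3],
   [1,2,1], [1,2,2], [3,1,3], [3,1,2],
   [2,1,3,3,3], [3,3,3], [2,1,3], [2,1,2],
   [3,1,3,3,3], [1,3,1,3], [1,3,1,2], [1,2,1,3,3,3],
   [1,3,3,3], [1,2,1,3], [1,2,1,2], [1,3,1,3,3,3],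
   [1,2,1,3,3], [3,1,3,3], [3,1,2,1], [3,1,2,2],
   [2,1,2,2], [2,1,3,3], [3,1,2,1,2], [1,3,1,2,2],
   [1,3,1,3,3], [1,3,1,2,1], [1,2,1,2,2], [1,3,1,2,1,2],
   [3,1,2,1,3,3,3], [3,1,2,1,3], [3,1,2,1,3,3], [3,1,2,1,2,2],
   [1,3,1,2,1,3,3,3], [1,3,1,2,1,3], [1,3,1,2,1,3,3], [1,3,1,2,1,2,2]]

/-- Transversal words. -/
def T (g : Fin 48) : List (Bool × Bool) := (Tl.getD g.val []).map dec

/-- The relator. -/
def sw : List (Bool × Bool) := List.map dec [3,1,2,1,3,0,0,3,1,2,1,2,2,0,0]

/-- The relator with the squares of `c` deleted. -/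
def sw' : List (Bool × Bool) := List.map dec [3,1,2,1,3,3,1,2,1,2,2]

/-- The word `c c`. -/
def cw2 : List (Bool × Bool) := List.map dec [1, 1]

/-- The word `u u u u u u`. -/
def uw : List (Bool × Bool) := List.map dec [3, 3, 3, 3, 3, 3]

/-- First certificate. -/
def cert0 : List ℕ :=
  [23, 50, 77, 158, 194, 201, 266, 338]

/-- Second certificate. -/
def steps : List ℕ :=
  [13824, 13825, 13827, 13828, 13829, 13830, 13831, 13832, 13833, 13834, 13835, 13837,
   13839, 13841, 13843, 13845, 13847, 13849, 13851, 13853, 13854, 13855, 13861, 13863,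
   13867, 13868, 13869, 13875, 13877, 13881, 13883, 13885, 13887, 13889, 13891, 13893,
   13895, 13897, 13899, 13901, 13903, 13907, 13909, 13911, 13915, 13917, 13919, 4610,
   4812, 4912, 5012, 5112, 6108, 6794, 9251, 9361, 9833, 10017, 10231, 10415,
   12177, 12857, 344, 5980, 546, 6666, 902, 6502, 1300, 7166, 1462, 5710,
   188, 8332, 2014, 8626, 1600, 7764, 32, 5294, 1776, 6274, 246, 5882,
   424, 5490, 1402, 7472, 1202, 7086, 666, 8822, 1700, 6372, 856, 8136]

/-- Image of `c`. -/
def pc : Equiv.Perm (Fin 10) :=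
  ⟨![0, 1, 5, 6, 7, 2, 3, 4, 9, 8], ![0, 1, 5, 6, 7, 2, 3, 4, 9, 8], by decide, by decide⟩

/-- Image of `u`. -/
def pu : Equiv.Perm (Fin 10) :=
  ⟨![3, 7, 1, 2, 6, 0, 4, 5, 8, 9], ![5, 2, 3, 0, 6, 7, 4, 1, 8, 9], by decide, by decide⟩

/-- Image of `t`. -/
def pt : Equiv.Perm (Fin 10) :=
  ⟨![8, 9, 0, 2, 3, 1, 5, 7, 4, 6], ![2, 5, 3, 4, 8, 6, 9, 7, 0, 1], by decide, by decide⟩

/-- End point of a word. -/
def run (g : Fin 48) (w : List (Bool × Bool)) : Fin 48 := w.foldl nx g

/-- Number of an edge. -/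
def key (g : Fin 48) (x : Bool) : ℕ := 2 * g.val + x.toNat

/-- Edges traversed by a word, with signs. -/
def fox : Fin 48 → List (Bool × Bool) → List (ℕ × ℤ)
  | _, [] => []
  | g, (x, true) :: w => (key g x, 1) :: fox (nx g (x, true)) w
  | g, (x, false) :: w => (key (nx g (x, false)) x, -1) :: fox (nx g (x, false)) w

/-- Insertion into a sparse vector. -/
def ins (i : ℕ) (c : ℤ) : List (ℕ × ℤ) → List (ℕ × ℤ)
  | [] => [(i, c)]
  | (j, d) :: l => bif Nat.beq i j then (j, c + d) :: l else (j, d) :: ins i c l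

/-- Adding a multiple of a sparse vector. -/
def addL (a : ℤ) (r acc : List (ℕ × ℤ)) : List (ℕ × ℤ) :=
  r.foldr (fun p acc => ins p.1 (a * p.2) acc) acc

/-- Adding a combination of translates of the relator. -/
def comb (cert : List ℕ) (acc : List (ℕ × ℤ)) : List (ℕ × ℤ) :=
  cert.foldr (fun c acc => addL (Int.subNatNat (c % 9) 4) (fox (Fin.ofNat 48 (c / 9)) sw) acc) acc

/-- Tree edges. -/
def isTree (g : Fin 48) (x : Bool) : Bool :=
  (T (nx g (x, true)) == T g ++ [(x, true)]) || (T g == T (nx g (x, true)) ++ [(x, false)])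

/-- The three relators. -/
def rw3 (r : ℕ) : List (Bool × Bool) := if r = 0 then sw' else if r = 1 then cw2 else uw

/-- The edge opposite to a `c`-edge. -/
def partner (k : ℕ) : ℕ :=
  if k % 2 = 0 then key (nx (Fin.ofNat 48 (k / 2)) (false, true)) false else k

/-- Exponent of the unknown edge. -/
def ex (Z k : ℕ) (p : ℕ × ℤ) : ℤ := if Z.testBit p.1 then 0 else if p.1 = k then p.2 else -p.2

/-- One deduction. -/
def stepOK (Z c : ℕ) : Bool :=
  decide (c % 96 < 96) &&
  (isTree (Fin.ofNat 48 (c % 96 / 2)) (c % 96 % 2 == 1) ||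
    ((fox (Fin.ofNat 48 (c / 96)) (rw3 (c / 4608))).all
        (fun p => Z.testBit p.1 || p.1 == c % 96 || p.1 == partner (c % 96)) &&
      ((fox (Fin.ofNat 48 (c / 96)) (rw3 (c / 4608))).map (ex Z (c % 96))).sum.natAbs == 1))

/-- A chain of deductions. -/
def go : ℕ → List ℕ → Bool
  | Z, [] => Z == 2 ^ 96 - 1
  | Z, c :: cs => stepOK Z c && go (Z ||| 2 ^ (c % 96)) cs

theorem check0 : (comb cert0 (addL 1 (fox 0 uw) [])).all (fun p => p.2 == 0) = true := by
  decide +kernel

theorem check1 : go 0 steps = true := by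
  decide +kernel

theorem nx_nx : ∀ (g : Fin 48) (x : Bool), nx (nx g (x, false)) (x, true) = g := by
  decide +kernel

theorem run_rw3 : ∀ g : Fin 48, run g sw = g ∧ run g cw2 = g ∧ run g uw = g ∧ run g sw' = g := by
  decide +kernel

theorem key_inv : ∀ (g : Fin 48) (x : Bool),
    Fin.ofNat 48 (key g x / 2) = g ∧ (key g x % 2 == 1) = x ∧ key g x < 96 := by
  decide +kernel

/-- Value of a sparse vector. -/
def evalL {B : Type} [Group B] (ε : ℕ → B) (l : List (ℕ × ℤ)) : B :=
  (l.map fun p => ε p.1 ^ p.2).prod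

theorem evalL_cons {B : Type} [Group B] (ε : ℕ → B) (p : ℕ × ℤ) (l : List (ℕ × ℤ)) :
    evalL ε (p :: l) = ε p.1 ^ p.2 * evalL ε l := by simp [evalL]

/-- A cocycle on the Schreier graph. -/
structure Coc {B : Type} [Group B] (α : Fin 48 → List (Bool × Bool) → B) : Prop where
  h0 : ∀ g, α g [] = 1
  h1 : ∀ g l w, α g (l :: w) = α g [l] * α (nx g l) w
  h2 : ∀ g x, α g [(x, false)] = (α (nx g (x, false)) [(x, true)])⁻¹

/-- Values on numbered edges. -/
def eps {B : Type} (α : Fin 48 → List (Bool × Bool) → B) (k : ℕ) : B :=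
  α (Fin.ofNat 48 (k / 2)) [(k % 2 == 1, true)]

theorem eps_key {B : Type} (α : Fin 48 → List (Bool × Bool) → B) (g : Fin 48) (x : Bool) :
    eps α (key g x) = α g [(x, true)] := by
  simp only [eps, (key_inv g x).1, (key_inv g x).2.1]

theorem Coc.fox {B : Type} [Group B] {α : Fin 48 → List (Bool × Bool) → B} (h : Coc α)
    (w : List (Bool × Bool)) (g : Fin 48) : evalL (eps α) (fox g w) = α g w := by
  induction w generalizing g with
  | nil => exact (h.h0 g).symm
  | cons l w ih =>
    rcases l with ⟨x, _ | _⟩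
    · rw [MP_488119_gt.fox, evalL_cons, ih, h.h1 g _ w, h.h2, eps_key]; simp
    · rw [MP_488119_gt.fox, evalL_cons, ih, h.h1 g _ w, eps_key]; simp

section Enum

variable {B : Type} [Group B]

theorem evalL_ex (ε : ℕ → B) (Z k k' : ℕ) (hZ : ∀ i, Z.testBit i = true → ε i = 1)
    (hk : k' = k ∨ ε k' = (ε k)⁻¹) (l : List (ℕ × ℤ))
    (h : l.all (fun p => Z.testBit p.1 || p.1 == k || p.1 == k') = true) :
    evalL ε l = ε k ^ (l.map (ex Z k)).sum := by
  induction l with
  | nil => simp [evalL]
  | cons p l ih =>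
    rw [List.all_cons, Bool.and_eq_true] at h
    rw [evalL_cons, ih h.2, List.map_cons, List.sum_cons, zpow_add, ex]
    congr 1
    split_ifs with h1 h2
    · rw [hZ _ h1]; simp
    · rw [h2]
    · have h3 : p.1 = k' := by simpa [h1, h2] using h.1
      rcases hk with hk | hk
      · exact absurd (h3.trans hk) h2
      · rw [h3, hk]; simp

theorem enum {α : Fin 48 → List (Bool × Bool) → B} (h : Coc α)
    (h3 : ∀ g x, isTree g x = true → α g [(x, true)] = 1) (h4 : ∀ g r, α g (rw3 r) = 1)
    (g : Fin 48) (x : Bool) : α g [(x, true)] = 1 := by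
  have hp : ∀ k, k < 96 → partner k = k ∨ eps α (partner k) = (eps α k)⁻¹ := by
    intro k hk
    unfold partner
    split_ifs with h0
    · right
      have := h4 (Fin.ofNat 48 (k / 2)) 1
      rw [show rw3 1 = [(false, true), (false, true)] from rfl, h.h1] at this
      rw [eps_key, eps, h0]
      exact eq_inv_of_mul_eq_one_right this
    · left; rfl
  have key' : ∀ (cs : List ℕ) (Z : ℕ), (∀ i, Z.testBit i = true → eps α i = 1) →
      go Z cs = true → ∀ i < 96, eps α i = 1 := by
    intro cs
    induction cs with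
    | nil =>
      intro Z hZ hg i hi
      rw [go, beq_iff_eq] at hg
      apply hZ
      rw [hg, Nat.testBit_two_pow_sub_one]
      exact decide_eq_true hi
    | cons c cs ih =>
      intro Z hZ hg
      rw [go, Bool.and_eq_true] at hg
      refine ih _ (fun i hi => ?_) hg.2
      rw [Nat.testBit_or, Bool.or_eq_true, Nat.testBit_two_pow, decide_eq_true_iff] at hi
      rcases hi with hi | rfl
      · exact hZ i hi
      · have h5 := hg.1
        rw [stepOK, Bool.and_eq_true, Bool.or_eq_true, Bool.and_eq_true, decide_eq_true_iff,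
          beq_iff_eq] at h5
        rcases h5 with ⟨h6, h5 | ⟨h5, h7⟩⟩
        · exact h3 _ _ h5
        · have := evalL_ex (eps α) Z _ _ hZ (hp _ h6) _ h5
          rw [h.fox, h4] at this
          rcases Int.natAbs_eq_iff.1 h7 with h8 | h8 <;> rw [h8] at this <;> simpa using this.symm
  rw [← eps_key α]
  exact key' steps 0 (by simp) check1 _ (key_inv g x).2.2

end Enum

section Lin

variable {B : Type} [CommGroup B]

theorem evalL_ins (ε : ℕ → B) (i : ℕ) (c : ℤ) (l : List (ℕ × ℤ)) :
    evalL ε (ins i c l) = ε i ^ c * evalL ε l := by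
  induction l with
  | nil => simp [ins, evalL]
  | cons p l ih =>
    obtain ⟨j, d⟩ := p
    rw [ins]
    cases h : Nat.beq i j
    · rw [cond_false, evalL_cons, evalL_cons, ih, mul_left_comm]
    · rw [cond_true, evalL_cons, evalL_cons, Nat.eq_of_beq_eq_true h, zpow_add, mul_assoc]

theorem evalL_addL (ε : ℕ → B) (a : ℤ) (r acc : List (ℕ × ℤ)) :
    evalL ε (addL a r acc) = evalL ε r ^ a * evalL ε acc := by
  induction r with
  | nil => simp [addL, evalL]
  | cons p r ih =>
    rw [addL, List.foldr_cons, evalL_ins, ← addL, ih, evalL_cons, mul_zpow, mul_comm a, zpow_mul,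
      mul_assoc]

theorem evalL_comb (ε : ℕ → B) (h : ∀ g, evalL ε (fox g sw) = 1) (cert : List ℕ)
    (acc : List (ℕ × ℤ)) : evalL ε (comb cert acc) = evalL ε acc := by
  induction cert with
  | nil => rfl
  | cons c cert ih =>
    rw [comb, List.foldr_cons, evalL_addL, ← comb, ih, h, one_zpow, one_mul]

theorem evalL_zero (ε : ℕ → B) (l : List (ℕ × ℤ)) (h : l.all (fun p => p.2 == 0) = true) :
    evalL ε l = 1 := by
  induction l with
  | nil => rfl
  | cons p l ih =>
    rw [List.all_cons, Bool.and_eq_true] at h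
    rw [evalL_cons, ih h.2, beq_iff_eq.1 h.1]; simp

theorem lin {α : Fin 48 → List (Bool × Bool) → B} (h : Coc α) (h4 : ∀ g, α g sw = 1) :
    α 0 uw = 1 := by
  have := evalL_zero (eps α) _ check0
  rw [evalL_comb _ (fun g => (h.fox _ _).trans (h4 g)), evalL_addL, h.fox] at this
  simpa [evalL] using this

end Lin

/-- Evaluation of a word in two letters. -/
def ev {G : Type} [Group G] (θ : Bool → G) (w : List (Bool × Bool)) : G :=
  (w.map fun l => cond l.2 (θ l.1) (θ l.1)⁻¹).prod

theorem ev_cons {G : Type} [Group G] (θ : Bool → G) (l : Bool × Bool) (w : List (Bool × Bool)) :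
    ev θ (l :: w) = ev θ [l] * ev θ w := by simp [ev]

theorem ev_append {G : Type} [Group G] (θ : Bool → G) (v w : List (Bool × Bool)) :
    ev θ (v ++ w) = ev θ v * ev θ w := by simp [ev]

theorem map_ev {G H : Type} [Group G] [Group H] (f : G →* H) (θ : Bool → G)
    (w : List (Bool × Bool)) : f (ev θ w) = ev (fun x => f (θ x)) w := by
  induction w with
  | nil => simp [ev]
  | cons l w ih =>
    rw [ev_cons, ev_cons (fun x => f (θ x)), map_mul, ih]
    rcases l with ⟨x, _ | _⟩ <;> simp [ev]

/-- The substitution `c ↦ t⁻¹ u ^ 3 t`, `u ↦ u`. -/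
def th : Bool → FreeGroup (Fin 2)
  | false => (FreeGroup.of 1)⁻¹ * FreeGroup.of 0 ^ 3 * FreeGroup.of 1
  | true => FreeGroup.of 0

/-- Schreier elements of words. -/
def sa (g : Fin 48) (w : List (Bool × Bool)) : FreeGroup (Fin 2) :=
  ev th (T g) * ev th w * (ev th (T (run g w)))⁻¹

/-- The relators. -/
def SS : Set (FreeGroup (Fin 2)) := {FreeGroup.of 0 ^ 6, ev th sw}

theorem sa_nil (g : Fin 48) : sa g [] = 1 := by simp [sa, run, ev]

theorem sa_cons (g : Fin 48) (l : Bool × Bool) (w : List (Bool × Bool)) :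
    sa g (l :: w) = sa g [l] * sa (nx g l) w := by
  simp only [sa, run, List.foldl_cons, List.foldl_nil]
  rw [ev_cons]; group

theorem sa_neg (g : Fin 48) (x : Bool) :
    sa g [(x, false)] = (sa (nx g (x, false)) [(x, true)])⁻¹ := by
  simp only [sa, run, List.foldl_cons, List.foldl_nil, nx_nx]
  simp [ev, mul_assoc]

theorem sa_tree (g : Fin 48) (x : Bool) (h : isTree g x = true) : sa g [(x, true)] = 1 := by
  rw [isTree, Bool.or_eq_true, beq_iff_eq, beq_iff_eq] at h
  simp only [sa, run, List.foldl_cons, List.foldl_nil]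
  rcases h with h | h
  · rw [h, ev_append]; group
  · rw [h, ev_append]; simp [ev]

theorem sa_zero (w : List (Bool × Bool)) (h : run 0 w = 0) : sa 0 w = ev th w := by
  rw [sa, h, show T 0 = [] from rfl]; simp [ev]

theorem ev_uw : ev th uw = FreeGroup.of 0 ^ 6 := by
  simp [ev, uw, dec, th, pow_succ, mul_assoc]

theorem ev_cw2 : ev th cw2 = (FreeGroup.of 1)⁻¹ * FreeGroup.of 0 ^ 6 * FreeGroup.of 1 := by
  simp only [ev, cw2, dec, th, List.map_cons, List.map_nil, List.prod_cons, List.prod_nil]
  simp only [show (1 / 2 == 1) = false from rfl, show (1 % 2 == 1) = true from rfl, cond_true]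
  group

theorem u6_mem : (FreeGroup.of 0 : FreeGroup (Fin 2)) ^ 6 ∈ Subgroup.normalClosure SS :=
  Subgroup.subset_normalClosure (Or.inl rfl)

theorem sw_mem : ev th sw ∈ Subgroup.normalClosure SS :=
  Subgroup.subset_normalClosure (Or.inr rfl)

theorem cw2_mem : ev th cw2 ∈ Subgroup.normalClosure SS :=
  ev_cw2 ▸ Subgroup.Normal.conj_mem' inferInstance _ u6_mem _

theorem sw'_mem : ev th sw' ∈ Subgroup.normalClosure SS := by
  have h : ev th sw' = ev th sw * ev th cw2 * ((ev th (List.map dec [3,1,2,1,2,2]))⁻¹ *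
      ev th cw2 * ev th (List.map dec [3,1,2,1,2,2])) := by
    generalize th = θ
    simp [ev, sw, sw', cw2, dec, mul_assoc]
  rw [h]
  exact mul_mem (mul_mem sw_mem cw2_mem) (Subgroup.Normal.conj_mem' inferInstance _ cw2_mem _)

theorem sa_mem (w : List (Bool × Bool)) (g : Fin 48) : sa g w ∈ Subgroup.normalClosure SS := by
  have key : ∀ g x, sa g [(x, true)] ∈ Subgroup.normalClosure SS := by
    intro g x
    let π := QuotientGroup.mk' (Subgroup.normalClosure SS)
    have hπ : ∀ y, π y = 1 ↔ y ∈ Subgroup.normalClosure SS := fun y => QuotientGroup.eq_one_iff y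
    rw [← hπ]
    refine enum (α := fun g w => π (sa g w)) ⟨fun g => by rw [sa_nil, map_one],
      fun g l w => by rw [sa_cons, map_mul], fun g x => by rw [sa_neg, map_inv]⟩
      (fun g x h => by rw [sa_tree g x h, map_one]) (fun g r => ?_) g x
    rw [hπ, sa, rw3]
    split_ifs
    · rw [(run_rw3 g).2.2.2]
      exact Subgroup.Normal.conj_mem inferInstance _ sw'_mem _
    · rw [(run_rw3 g).2.1]
      exact Subgroup.Normal.conj_mem inferInstance _ cw2_mem _
    · rw [(run_rw3 g).2.2.1, ev_uw]
      exact Subgroup.Normal.conj_mem inferInstance _ u6_mem _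
  induction w generalizing g with
  | nil => rw [sa_nil]; exact one_mem _
  | cons l w ih =>
    rw [sa_cons]
    refine mul_mem ?_ (ih _)
    rcases l with ⟨x, _ | _⟩
    · rw [sa_neg]
      exact inv_mem (key _ _)
    · exact key _ _

theorem cyclic_module : Subgroup.normalClosure SS = Subgroup.normalClosure {ev th sw} ⊔
    ⁅Subgroup.normalClosure SS, Subgroup.normalClosure SS⁆ := by
  set P := Subgroup.normalClosure SS with hP
  set M := Subgroup.normalClosure {ev th sw} ⊔ ⁅P, P⁆ with hM
  apply le_antisymm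
  swap
  · refine sup_le (Subgroup.normalClosure_le_normal ?_) (Subgroup.commutator_le_left _ _)
    rintro _ rfl
    exact sw_mem
  let π := QuotientGroup.mk' M
  have hπ : ∀ y, π y = 1 ↔ y ∈ M := fun y => QuotientGroup.eq_one_iff y
  let _ : CommGroup (P.map π) :=
    { (inferInstance : Group (P.map π)) with
      mul_comm := by
        rintro ⟨_, a, ha, rfl⟩ ⟨_, b, hb, rfl⟩
        apply Subtype.ext
        change π a * π b = π b * π a
        rw [← commutatorElement_eq_one_iff_mul_comm, ← map_commutatorElement, hπ]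
        exact Subgroup.mem_sup_right (Subgroup.commutator_mem_commutator ha hb) }
  let α : Fin 48 → List (Bool × Bool) → P.map π :=
    fun g w => ⟨π (sa g w), _, sa_mem w g, rfl⟩
  have hα : ∀ g w, α g w = 1 ↔ sa g w ∈ M := by
    intro g w
    rw [← hπ]
    exact Subtype.ext_iff
  have hs : ev th sw ∈ M := Subgroup.mem_sup_left (Subgroup.subset_normalClosure rfl)
  have key := lin (α := α) ⟨fun g => (hα _ _).2 (by rw [sa_nil]; exact one_mem _),
    fun g l w => Subtype.ext (by
      change π (sa g (l :: w)) = π (sa g [l]) * π (sa (nx g l) w)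
      rw [sa_cons, map_mul]),
    fun g x => Subtype.ext (by
      change π (sa g [(x, false)]) = (π (sa (nx g (x, false)) [(x, true)]))⁻¹
      rw [sa_neg, map_inv])⟩
    (fun g => by
      rw [hα, sa, (run_rw3 g).1]
      exact Subgroup.Normal.conj_mem inferInstance _ hs _)
  rw [hα, sa_zero uw (run_rw3 0).2.2.1, ev_uw] at key
  apply Subgroup.normalClosure_le_normal
  rintro _ (rfl | rfl)
  · exact key
  · exact hs

/-- A finite quotient. -/
def psi : FreeGroup (Fin 2) →* Equiv.Perm (Fin 10) := FreeGroup.lift ![pu, pt]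

theorem check2 : ev (fun x => cond x pu pc) sw = 1 ∧ pu ^ 6 = 1 ∧ pt⁻¹ * pu ^ 3 * pt = pc ∧
    pu ≠ 1 := by
  decide +kernel

theorem psi_SS : ∀ s ∈ SS, psi s = 1 := by
  rintro _ (rfl | rfl)
  · simpa [psi] using check2.2.1
  · have h : (fun x => psi (th x)) = fun x => cond x pu pc := by
      funext x
      cases x
      · simp [psi, th, check2.2.2.1]
      · simp [psi, th]
    rw [map_ev, h, check2.1]

theorem psi_u : psi (FreeGroup.of 0) ≠ 1 := by simpa [psi] using check2.2.2.2

theorem weight_one {G : Type} [Group G] (f : FreeGroup (Fin 2) →* G)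
    (h1 : f (FreeGroup.of 1) = 1) (h2 : f (ev th sw) = 1) (y : FreeGroup (Fin 2)) : f y = 1 := by
  have h3 : f (FreeGroup.of 0) = 1 := by
    have h : (fun x => f (th x)) =
        fun x => cond x (f (FreeGroup.of 0)) (f (FreeGroup.of 0) ^ 3) := by
      funext x
      cases x <;> simp [th, h1]
    rw [map_ev, h] at h2
    rw [← inv_eq_one, ← h2]
    generalize f (FreeGroup.of 0) = a
    simp [ev, sw, dec]
    group
  have : f = 1 := by
    ext x
    fin_cases x
    · exact h3
    · exact h1
  rw [this]; rfl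

end Pool.Agent.P.MP_488119_gt
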