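import Pool.Agent.P.MP_488119_gt.Cx

open unitInterval Set Topology

noncomputable section

namespace Pool.Agent.P.MP_488119_gt

/-- Injective configurations indexed by a group. -/
def EQ (Q : Type) : Type := {v : Q → ℕ → ℝ // Function.Injective v}

instance (Q : Type) : TopologicalSpace (EQ Q) :=
  inferInstanceAs (TopologicalSpace {v : Q → ℕ → ℝ // Function.Injective v})

instance (Q : Type) [Group Q] : MulAction Q (EQ Q) where
  smul g v := ⟨fun h => v.1 (h * g), v.2.comp (mul_left_injective g)⟩
  one_smul v := Subtype.ext (funext fun h => congrArg v.1 (mul_one h))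
  mul_smul g g' v := Subtype.ext (funext fun h => congrArg v.1 (mul_assoc h g g').symm)

instance (Q : Type) [Group Q] : ContinuousConstSMul Q (EQ Q) where
  continuous_const_smul g :=
    Continuous.subtype_mk (f := fun (v : EQ Q) h => v.1 (h * g))
      (continuous_pi fun h => (continuous_apply (h * g)).comp continuous_subtype_val) _

/-- The shift. -/
def sh (c : ℝ) (a : ℕ → ℝ) : ℕ → ℝ
  | 0 => c
  | n + 1 => a n

theorem inj1 (r : ℝ) {a b : ℕ → ℝ}
    (h : (fun n => (1 - r) * a n + r * sh 0 a n) = fun n => (1 - r) * b n + r * sh 0 b n) :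
    a = b := by
  funext n
  by_cases hr : r = 1
  · have := congrFun h (n + 1)
    simpa [hr, sh] using this
  · have hr' : 1 - r ≠ 0 := sub_ne_zero.2 (Ne.symm hr)
    induction n with
    | zero =>
      have := congrFun h 0
      simp only [sh, mul_zero, add_zero] at this
      exact mul_left_cancel₀ hr' this
    | succ n ih =>
      have := congrFun h (n + 1)
      simp only [sh, ih, add_left_inj] at this
      exact mul_left_cancel₀ hr' this

theorem continuous_sh {T : Type} [TopologicalSpace T] {c : T → ℝ} {a : T → ℕ → ℝ}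
    (hc : Continuous c) (ha : Continuous a) (n : ℕ) : Continuous fun t => sh (c t) (a t) n := by
  cases n with
  | zero => exact hc
  | succ n => exact (continuous_apply n).comp ha

theorem contractible_EQ (Q : Type) [Finite Q] : ContractibleSpace (EQ Q) := by
  obtain ⟨ν, hν⟩ := exists_injective_nat Q
  have c0 : ∀ q : Q, Continuous fun p : I × EQ Q => p.2.1 q := fun q =>
    (continuous_apply q).comp (continuous_subtype_val.comp continuous_snd)
  let H1 : C(I × EQ Q, EQ Q) :=
    ⟨fun p => ⟨fun q n => (1 - (p.1 : ℝ)) * p.2.1 q n + p.1 * sh 0 (p.2.1 q) n,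
      fun q q' h => p.2.2 (inj1 _ h)⟩, by
      refine Continuous.subtype_mk (continuous_pi fun q => continuous_pi fun n => ?_) _
      have h1 := (continuous_apply n).comp (c0 q)
      have h2 := continuous_sh (continuous_const (y := (0 : ℝ))) (c0 q) n
      exact ((continuous_const.sub (continuous_subtype_val.comp continuous_fst)).mul h1).add
        ((continuous_subtype_val.comp continuous_fst).mul h2)⟩
  let H2 : C(I × EQ Q, EQ Q) :=
    ⟨fun p => ⟨fun q => sh ((p.1 : ℝ) * ν q) (fun n => (1 - (p.1 : ℝ)) * p.2.1 q n), by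
      intro q q' h
      by_cases hr : (p.1 : ℝ) = 0
      · apply p.2.2
        funext n
        simpa [sh, hr] using congrFun h (n + 1)
      · have := congrFun h 0
        simp only [sh] at this
        exact hν (Nat.cast_injective (mul_left_cancel₀ hr this))⟩, by
      refine Continuous.subtype_mk (continuous_pi fun q => continuous_pi fun n => ?_) _
      refine continuous_sh (by fun_prop) (continuous_pi fun m => ?_) n
      exact (continuous_const.sub (continuous_subtype_val.comp continuous_fst)).mul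
        ((continuous_apply m).comp (c0 q))⟩
  let v0 : EQ Q := ⟨fun q => sh (ν q) 0, fun q q' h => by
    have := congrFun h 0
    simp only [sh] at this
    exact hν (Nat.cast_injective this)⟩
  let S : C(EQ Q, EQ Q) := H1.comp ((ContinuousMap.const _ 1).prodMk (ContinuousMap.id _))
  rw [contractible_iff_id_nullhomotopic]
  refine ⟨v0, ContinuousMap.Homotopic.trans (g := S) ⟨⟨H1, ?_, fun _ => rfl⟩⟩ ⟨⟨H2, ?_, ?_⟩⟩⟩
  · intro v
    apply Subtype.ext
    funext q n
    change (1 - ((0 : I) : ℝ)) * v.1 q n + ((0 : I) : ℝ) * sh 0 (v.1 q) n = v.1 q n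
    simp
  · intro v
    apply Subtype.ext
    funext q n
    change sh (((0 : I) : ℝ) * ν q) (fun n => (1 - ((0 : I) : ℝ)) * v.1 q n) n =
      (1 - ((1 : I) : ℝ)) * v.1 q n + ((1 : I) : ℝ) * sh 0 (v.1 q) n
    cases n <;> simp [sh]
  · intro v
    apply Subtype.ext
    funext q n
    change sh (((1 : I) : ℝ) * ν q) (fun n => (1 - ((1 : I) : ℝ)) * v.1 q n) n = sh (ν q) 0 n
    cases n <;> simp [sh]

theorem isQuotientCoveringMap_EQ (Q : Type) [Group Q] [Finite Q] :
    IsQuotientCoveringMap (Quotient.mk (MulAction.orbitRel Q (EQ Q))) Q where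
  __ := isQuotientMap_quotient_mk'
  apply_eq_iff_mem_orbit := Quotient.eq''
  disjoint e := by
    obtain ⟨W, hW, hd⟩ := (Set.finite_range e.1).t2_separation
    refine ⟨{v | ∀ q, v.1 q ∈ W (e.1 q)}, IsOpen.mem_nhds ?_ fun q => (hW _).1, ?_⟩
    · rw [Set.ofPred_forall]
      exact isOpen_iInter_of_finite fun q =>
        (hW _).2.preimage ((continuous_apply q).comp continuous_subtype_val)
    · rintro g ⟨_, ⟨v, hv, rfl⟩, h⟩
      have h1 : v.1 (1 * g) ∈ W (e.1 1) := h 1
      rw [one_mul] at h1
      by_contra hg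
      exact disjoint_left.1 (hd ⟨g, rfl⟩ ⟨1, rfl⟩ (e.2.ne hg)) (hv g) h1

theorem exists_space (Q : Type) [Group Q] [Finite Q] :
    ∃ (Z : Type) (_ : TopologicalSpace Z) (z : Z), Nonempty (FundamentalGroup Z z ≃* Q) := by
  have := contractible_EQ Q
  obtain ⟨e⟩ : Nonempty (EQ Q) := inferInstance
  exact ⟨_, _, Quotient.mk (MulAction.orbitRel Q (EQ Q)) e,
    ⟨((isQuotientCoveringMap_EQ Q).fundamentalGroupEquiv ⟨e, rfl⟩).trans (MulEquiv.inv' Q).symm⟩⟩

variable {X J J₀ : Type} [DecidableEq X] [DecidableEq J₀]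

/-- The homomorphism from the free group to the fundamental group. -/
def toPi (κ : J → J₀) (w : J → List (X × Bool)) :
    FreeGroup X →* FundamentalGroup (Cx κ w) (base κ w) :=
  FreeGroup.lift fun x => cls (edgeC κ w x)

theorem toPi_rel (κ : J → J₀) (w : J → List (X × Bool)) (j : J) :
    toPi κ w (FreeGroup.mk (w j)) = 1 := by
  rw [toPi, ← cls_wl, ← cls_refl, cls_eq_iff]
  refine ⟨⟨⟨⟨fun p => faceC κ w j p.1 p.2, by fun_prop⟩, ?_, ?_⟩, ?_⟩⟩
  · intro s; simp
  · intro s; simp
  · intro t s hs
    rcases hs with rfl | rfl <;> simp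

theorem toPi_detect [Finite X] [Finite J] {κ : J → J₀} (hκ : Function.Injective κ)
    (w : J → List (X × Bool)) {Q : Type} [Group Q] [Finite Q] (ψ : FreeGroup X →* Q)
    (hψ : ∀ j, ψ (FreeGroup.mk (w j)) = 1) (g : FreeGroup X) (hg : toPi κ w g = 1) :
    ψ g = 1 := by
  obtain ⟨Z, _, z, ⟨e⟩⟩ := exists_space Q
  choose γ hγ using fun x => cls_surj (e.symm (ψ (FreeGroup.of x)))
  have h1 : ∀ v, cls (wl γ v) = e.symm (ψ (FreeGroup.mk v)) := by
    intro v
    rw [cls_wl]
    have : FreeGroup.lift (fun x => cls (γ x)) = e.symm.toMonoidHom.comp ψ := by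
      ext x; simp [hγ]
    rw [this]; rfl
  have h2 : ∀ j, (wl γ (w j)).Homotopic (Path.refl z) := by
    intro j
    rw [← cls_eq_iff, h1, hψ, map_one, cls_refl]
  have H := fun j => (h2 j).some
  let d : Data w Z :=
    { z := z
      γ := γ
      h := fun j => ⟨H j, (H j).continuous⟩
      h0 := fun j s => (H j).apply_zero s
      h1 := fun j s => (H j).apply_one s
      h2 := fun j t => (H j).source t
      h3 := fun j t => (H j).target t }
  obtain ⟨f, hf⟩ := desc hκ w d
  have hz : f (base κ w) = z := hf none (0, 0)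
  obtain ⟨v, rfl⟩ : ∃ v, FreeGroup.mk v = g := ⟨g.toWord, FreeGroup.mk_toWord⟩
  rw [toPi, ← cls_wl, ← cls_refl, cls_eq_iff] at hg
  obtain ⟨K⟩ := hg
  have h3 : (wl γ v).Homotopic (Path.refl z) := by
    refine ⟨⟨⟨⟨fun p => f (K p), by fun_prop⟩, ?_, ?_⟩, ?_⟩⟩
    · intro s
      change f (K (0, s)) = wl γ v s
      rw [K.apply_zero]
      change f (wl (edgeC κ w) v s) = _
      rcases wl_apply v s with ⟨x, s', E⟩ | E <;> rw [E, E]
      · exact hf (some (.inl x)) (0, s')
      · exact hz
    · intro s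
      change f (K (1, s)) = z
      rw [K.apply_one]; exact hz
    · intro t s hs
      change f (K (t, s)) = wl γ v s
      rcases hs with rfl | rfl <;> simp [hz]
  rw [← cls_eq_iff, h1, cls_refl] at h3
  exact e.symm.injective (h3.trans (map_one _).symm)

end Pool.Agent.P.MP_488119_gt
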