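import Pool.Agent.P.MP_488119_gt.Cx

open unitInterval Set Metric Topology

noncomputable section

namespace Pool.Agent.P.MP_488119_gt

variable {X J J₀ : Type}

/-- The cells. -/
@[reducible] def cellT (X J : Type) : ℕ → Type
  | 0 => Unit
  | 1 => X
  | 2 => J
  | _ + 3 => Empty

/-- The index of a cell. -/
def idx : (n : ℕ) → cellT X J n → Option (X ⊕ J)
  | 0, _ => none
  | 1, x => some (.inl x)
  | 2, j => some (.inr j)
  | _ + 3, e => Empty.elim e

/-- Affine rescaling of an interval. -/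
def cl (r : ℝ) : I := projIcc 0 1 zero_le_one ((r + 1) / 2)

theorem continuous_cl : Continuous cl := continuous_projIcc.comp (by fun_prop)

theorem cl_val {r : ℝ} (h : |r| ≤ 1) : (cl r : ℝ) = (r + 1) / 2 := by
  rw [abs_le] at h
  rw [cl, projIcc_of_mem _ ⟨by linarith, by linarith⟩]

theorem cl_int {r : ℝ} (h : |r| < 1) : Int01 (cl r) := by
  rw [Int01, cl_val h.le]
  rw [abs_lt] at h
  constructor <;> linarith

theorem cl_not_int {r : ℝ} (h : |r| = 1) : ¬ Int01 (cl r) := by
  rw [Int01, cl_val h.le]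
  rcases abs_eq zero_le_one |>.1 h with rfl | rfl <;> norm_num

theorem cl_inv (s : I) : cl (2 * s - 1) = s := by
  apply Subtype.ext
  rw [cl_val (abs_le.2 ⟨by linarith [s.2.1], by linarith [s.2.2]⟩)]
  ring

theorem abs_lt_of_int {s : I} (h : Int01 s) : |2 * (s : ℝ) - 1| < 1 :=
  abs_lt.2 ⟨by linarith [h.1], by linarith [h.2]⟩

/-- Cell coordinates. -/
def par : (n : ℕ) → (Fin n → ℝ) → I × I
  | 0, _ => (0, 0)
  | 1, y => (0, cl (y 0))
  | 2, y => (cl (y 0), cl (y 1))
  | _ + 3, _ => (0, 0)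

theorem continuous_par : ∀ n, Continuous (par n)
  | 0 => continuous_const
  | 1 => continuous_const.prodMk (continuous_cl.comp (continuous_apply 0))
  | 2 => (continuous_cl.comp (continuous_apply 0)).prodMk (continuous_cl.comp (continuous_apply 1))
  | _ + 3 => continuous_const

theorem mem_ball_iff {n : ℕ} {y : Fin n → ℝ} : y ∈ ball (0 : Fin n → ℝ) 1 ↔ ∀ i, |y i| < 1 := by
  rw [mem_ball_zero_iff, pi_norm_lt_iff zero_lt_one]
  rfl

theorem good_par : ∀ (n : ℕ) (i : cellT X J n) {y : Fin n → ℝ}, y ∈ ball (0 : Fin n → ℝ) 1 →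
    Good (idx n i) (par n y)
  | 0, _, _, _ => rfl
  | 1, _, _, h => ⟨rfl, cl_int (mem_ball_iff.1 h 0)⟩
  | 2, _, _, h => ⟨cl_int (mem_ball_iff.1 h 0), cl_int (mem_ball_iff.1 h 1)⟩
  | _ + 3, e, _, _ => Empty.elim e

theorem exists_par (i : Option (X ⊕ J)) (p : I × I) (h : Good i p) :
    ∃ (c : cellT X J (dim i)), idx _ c = i ∧
      ∃ y ∈ ball (0 : Fin (dim i) → ℝ) 1, par _ y = p := by
  rcases i with _ | x | j
  · exact ⟨(), rfl, 0, mem_ball_self zero_lt_one, h.symm⟩
  · refine ⟨x, rfl, fun _ => 2 * p.2 - 1, mem_ball_iff.2 fun _ => abs_lt_of_int h.2, ?_⟩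
    exact Prod.ext h.1.symm (cl_inv _)
  · refine ⟨j, rfl, ![2 * p.1 - 1, 2 * p.2 - 1], mem_ball_iff.2 fun i => ?_, ?_⟩
    · change Fin 2 at i
      fin_cases i
      · exact abs_lt_of_int h.1
      · exact abs_lt_of_int h.2
    · exact Prod.ext (cl_inv _) (cl_inv _)

theorem idx_inj : Function.Injective fun a : Σ n, cellT X J n => idx a.1 a.2 := by
  rintro ⟨n, c⟩ ⟨m, d⟩ h
  rcases n with _ | _ | _ | n <;> rcases m with _ | _ | _ | m <;>
    first
    | exact Empty.elim c
    | exact Empty.elim d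
    | rfl
    | (simp only [idx] at h; cases h; rfl)
    | (simp [idx] at h)

variable [DecidableEq X] [DecidableEq J] [DecidableEq J₀]

/-- Inverse coordinates. -/
def inv : (n : ℕ) → cellT X J n → V X J → (Fin n → ℝ)
  | 0, _, _ => 0
  | 1, x, v => fun _ => 2 * ((v.1 x).2 / (v.1 x).1) - 1
  | 2, j, v => ![2 * ((v.2 j).2.1 / (v.2 j).1) - 1, 2 * ((v.2 j).2.2 / (v.2 j).1) - 1]
  | _ + 3, _, _ => 0

theorem inv_left (w : J → List (X × Bool)) : ∀ (n : ℕ) (i : cellT X J n) {y : Fin n → ℝ},
    y ∈ ball (0 : Fin n → ℝ) 1 → inv n i ((geo id w).val (idx n i) (par n y)) = y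
  | 0, _, _, _ => Subsingleton.elim _ _
  | 1, x, y, h => by
    have h1 := good_par 1 x h
    have h2 := (mul_pos h1.2.1 (sub_pos.2 h1.2.2)).ne'
    funext i
    obtain rfl : i = 0 := Subsingleton.elim _ _
    simp only [inv, idx, geo_edge, Pi.single_eq_same]
    rw [mul_div_cancel_right₀ _ h2]
    simp only [par]
    rw [cl_val (mem_ball_iff.1 h 0).le]; ring
  | 2, j, y, h => by
    have h1 := good_par 2 j h
    have h2 := (bump_pos h1).ne'
    funext i
    fin_cases i
    · simp only [inv, idx, geo_face_snd, id, Pi.single_eq_same]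
      rw [mul_div_cancel_right₀ _ h2]
      simp only [par, Fin.zero_eta, Matrix.cons_val_zero]
      rw [cl_val (mem_ball_iff.1 h 0).le]; ring
    · simp only [inv, idx, geo_face_snd, id, Pi.single_eq_same]
      rw [mul_div_cancel_right₀ _ h2, mul_div_cancel_right₀ _ h2]
      simp only [par, Fin.mk_one, Matrix.cons_val_one, Matrix.cons_val_zero]
      rw [cl_val (mem_ball_iff.1 h 1).le]; ring
  | _ + 3, e, _, _ => Empty.elim e

theorem inv_cont (w : J → List (X × Bool)) : ∀ (n : ℕ) (i : cellT X J n),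
    ContinuousOn (inv n i) ((fun y => (geo id w).val (idx n i) (par n y)) '' ball 0 1)
  | 0, _ => continuousOn_const
  | 1, x => by
    refine continuousOn_pi.2 fun _ => ?_
    refine ContinuousOn.sub (ContinuousOn.mul continuousOn_const
      (ContinuousOn.div (by fun_prop) (by fun_prop) ?_)) continuousOn_const
    rintro _ ⟨y, h, rfl⟩
    have h1 := good_par 1 x h
    simpa only [idx, geo_edge, Pi.single_eq_same] using (mul_pos h1.2.1 (sub_pos.2 h1.2.2)).ne'
  | 2, j => by
    have key : ∀ v ∈ (fun y => (geo id w).val (idx 2 j) (par 2 y)) '' ball 0 1,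
        (v.2 j).1 ≠ 0 := by
      rintro _ ⟨y, h, rfl⟩
      have h1 := good_par 2 j h
      simpa only [idx, geo_face_snd, id, Pi.single_eq_same] using (bump_pos h1).ne'
    refine continuousOn_pi.2 fun i => ?_
    fin_cases i
    · exact ContinuousOn.sub (ContinuousOn.mul continuousOn_const
        (ContinuousOn.div (f := fun v : V X J => (v.2 j).2.1) (by fun_prop) (by fun_prop) key))
        continuousOn_const
    · exact ContinuousOn.sub (ContinuousOn.mul continuousOn_const
        (ContinuousOn.div (f := fun v : V X J => (v.2 j).2.2) (by fun_prop) (by fun_prop) key))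
        continuousOn_const
  | _ + 3, e => Empty.elim e

/-- The characteristic maps. -/
def cmap (w : J → List (X × Bool)) (n : ℕ) (i : cellT X J n) : PartialEquiv (Fin n → ℝ) (V X J) where
  toFun y := (geo id w).val (idx n i) (par n y)
  invFun := inv n i
  source := ball 0 1
  target := (fun y => (geo id w).val (idx n i) (par n y)) '' ball 0 1
  map_source' y hy := ⟨y, hy, rfl⟩
  map_target' := by
    rintro _ ⟨y, hy, rfl⟩
    rw [inv_left w n i hy]; exact hy
  left_inv' y hy := inv_left w n i hy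
  right_inv' := by
    rintro _ ⟨y, hy, rfl⟩
    rw [inv_left w n i hy]

theorem good_mem (w : J → List (X × Bool)) {i : Option (X ⊕ J)} {p : I × I} (h : Good i p) :
    ∃ c : cellT X J (dim i), idx _ c = i ∧ (geo id w).val i p ∈ cmap w _ c '' ball 0 1 := by
  obtain ⟨c, hc, y, hy, hp⟩ := exists_par i p h
  refine ⟨c, hc, y, hy, ?_⟩
  change (geo id w).val (idx _ c) (par _ y) = _
  rw [hc, hp]

theorem cmap_mapsTo (w : J → List (X × Bool)) : ∀ (n : ℕ) (i : cellT X J n),
    MapsTo (cmap w n i) (sphere 0 1) (⋃ (m < n) (j : cellT X J m), cmap w m j '' closedBall 0 1)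
  | 0, _ => by
    intro y hy
    rw [Subsingleton.elim y 0, mem_sphere_zero_iff_norm, norm_zero] at hy
    exact absurd hy zero_ne_one
  | 1, x => by
    intro y hy
    have h1 : |y 0| = 1 := by
      rw [mem_sphere_zero_iff_norm, Pi.norm_def] at hy
      simpa using hy
    obtain ⟨i, p, h2, -, h3, h4⟩ := nf_edge w x (cl (y 0))
    obtain ⟨c, -, hc⟩ := good_mem w h2
    simp only [mem_iUnion]
    refine ⟨_, h3 (cl_not_int h1), c, image_mono ball_subset_closedBall ?_⟩
    rw [← h4] at hc
    exact hc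
  | 2, j => by
    intro y hy
    have h1 : ¬ (Int01 (par 2 y).1 ∧ Int01 (par 2 y).2) := by
      rintro ⟨ha, hb⟩
      rw [mem_sphere_zero_iff_norm] at hy
      have h0 : ∀ i, |y i| ≤ 1 := fun i => hy ▸ norm_le_pi_norm y i
      have : y ∈ ball (0 : Fin 2 → ℝ) 1 := by
        refine mem_ball_iff.2 fun i => lt_of_le_of_ne (h0 i) fun h => ?_
        fin_cases i
        · exact cl_not_int h ha
        · exact cl_not_int h hb
      rw [mem_ball_zero_iff, hy] at this
      exact lt_irrefl _ this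
    obtain ⟨i, p, h2, h3, h4⟩ := nf_face w j _ h1
    obtain ⟨c, -, hc⟩ := good_mem w h2
    simp only [mem_iUnion]
    refine ⟨_, h3, c, image_mono ball_subset_closedBall ?_⟩
    rw [← h4] at hc
    exact hc
  | _ + 3, e => Empty.elim e

omit [DecidableEq X] [DecidableEq J] in
theorem cell_empty (n : ℕ) (hn : 2 < n) : IsEmpty (cellT X J n) := by
  obtain ⟨m, rfl⟩ : ∃ m, n = m + 3 := ⟨n - 3, by omega⟩
  exact inferInstanceAs (IsEmpty Empty)

omit [DecidableEq X] [DecidableEq J] in
theorem cell_finite [Finite X] [Finite J] : ∀ n, Finite (cellT X J n)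
  | 0 => inferInstanceAs (Finite Unit)
  | 1 => inferInstanceAs (Finite X)
  | 2 => inferInstanceAs (Finite J)
  | _ + 3 => inferInstanceAs (Finite Empty)

/-- The CW structure of the presentation complex. -/
@[reducible] def cw [Finite X] [Finite J] (w : J → List (X × Bool)) : CWComplex (Cx id w) :=
  CWComplex.mkFinite (Cx id w) (cellT X J) (cmap w)
    (Filter.eventually_atTop.2 ⟨3, fun n hn => cell_empty n hn⟩) cell_finite
    (fun _ _ => rfl)
    (fun n i => (((geo id w).continuous_val _).comp (continuous_par n)).continuousOn)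
    (inv_cont w)
    (by
      intro a _ b _ hab
      refine disjoint_left.2 ?_
      rintro _ ⟨y, hy, rfl⟩ ⟨y', hy', h⟩
      exact hab (idx_inj (geo_inj Function.injective_id w (good_par _ _ hy') (good_par _ _ hy)
        h).1.symm))
    (cmap_mapsTo w)
    (by
      apply Subset.antisymm
      · simp only [iUnion_subset_iff]
        rintro n j _ ⟨y, -, rfl⟩
        exact mem_Cx id w _ _
      · rintro _ ⟨⟨i, p⟩, rfl⟩
        obtain ⟨i', p', h1, h2⟩ := nf w i p
        obtain ⟨c, -, hc⟩ := good_mem w h1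
        simp only [mem_iUnion]
        refine ⟨_, c, image_mono ball_subset_closedBall ?_⟩
        rw [h2]; exact hc)

omit [DecidableEq J] in
theorem geo_comp (κ : J → J₀) (w : J₀ → List (X × Bool)) (i : Option (X ⊕ J)) (p : I × I) :
    (geo κ (w ∘ κ)).val i p = (geo id w).val (i.map (Sum.map id κ)) p := by
  rcases i with _ | x | j <;> rfl

omit [DecidableEq J] in
theorem exists_subcomplex [Finite X] [Finite J] [Finite J₀] (κ : J → J₀)
    (w : J₀ → List (X × Bool)) :
    letI := cw w
    ∃ K : CWComplex.Subcomplex (Cx id w), (K : Set (V X J₀)) = Cx κ (w ∘ κ) := by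
  let _ := cw w
  refine ⟨⟨Cx κ (w ∘ κ), fun n => {c | idx n c ∈ range (Option.map (Sum.map id κ))},
    (isCompact_Cx κ _).isClosed, ?_⟩, rfl⟩
  rw [empty_union]
  apply Subset.antisymm
  · simp only [iUnion_subset_iff]
    rintro n ⟨c, i, hi⟩ _ ⟨y, -, rfl⟩
    change (geo id w).val (idx n c) (par n y) ∈ _
    rw [← hi, ← geo_comp]
    exact mem_Cx _ _ _ _
  · rintro _ ⟨⟨i, p⟩, rfl⟩
    obtain ⟨i', p', h1, h2⟩ := nf (w ∘ κ) i p
    have h3 : Good (i'.map (Sum.map id κ)) p' := by
      rcases i' with _ | x | j <;> exact h1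
    obtain ⟨c, hc1, hc⟩ := good_mem w h3
    simp only [mem_iUnion]
    refine ⟨_, ⟨c, i', hc1.symm⟩, ?_⟩
    rw [h2, geo_comp]
    exact hc

end Pool.Agent.P.MP_488119_gt
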