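import Pool.Agent.P.MP_488119_gt.Cx

open unitInterval Set Topology

noncomputable section

namespace Pool.Agent.P.MP_488119_gt

/-- First reparametrisation. -/
def rA (τ : I) : I := projIcc 0 1 zero_le_one (1 - 2 * τ)

/-- Second reparametrisation. -/
def rB (τ : I) : I := projIcc 0 1 zero_le_one (2 * τ - 1)

theorem continuous_rA : Continuous rA := continuous_projIcc.comp (by fun_prop)

theorem continuous_rB : Continuous rB := continuous_projIcc.comp (by fun_prop)

theorem rA_zero : rA 0 = 1 := by simp [rA]

theorem rB_zero : rB 0 = 0 := projIcc_of_le_left _ (by simp)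

theorem rB_one : rB 1 = 1 := projIcc_of_right_le _ (by norm_num)

theorem rA_or_rB (τ : I) : rA τ = 0 ∨ rB τ = 0 := by
  rcases le_total (τ : ℝ) (1 / 2) with h | h
  · right; exact projIcc_of_le_left _ (by linarith)
  · left; exact projIcc_of_le_left _ (by linarith)

variable {X : Type} [DecidableEq X] [Finite X]

theorem contractible_Cx (w : X → List (X × Bool))
    (hw : Subgroup.normalClosure (Set.range fun j => FreeGroup.mk (w j)) = ⊤) :
    ContractibleSpace (Cx id w) := by
  obtain ⟨D, hD⟩ := exists_D (edgeC id w) w hw (faceC id w)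
  have H := fun j => (hD j).some
  let d : Data w C(I, Cx id w) :=
    { z := ContinuousMap.const _ (base id w)
      γ := fun x =>
        { toContinuousMap := ContinuousMap.curry ⟨fun p : I × I => D x (rB p.2) p.1, by
            have := continuous_rB
            fun_prop⟩
          source' := by ext1 τ; exact (D x (rB τ)).source
          target' := by ext1 τ; exact (D x (rB τ)).target }
      h := fun j => ContinuousMap.curry
        ⟨fun p : (I × I) × I => H j (rA p.2, max p.1.1 (rB p.2)) p.1.2, by
          have := continuous_rA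
          have := continuous_rB
          fun_prop⟩
      h0 := by
        intro j s
        ext1 τ
        have h1 : H j (rA τ, max 0 (rB τ)) = wlD D (w j) (rB τ) := by
          rw [max_eq_right (show (0 : I) ≤ rB τ from (rB τ).2.1)]
          rcases rA_or_rB τ with h | h
          · rw [h]; exact (H j).apply_zero _
          · rw [h, (H j).source, (wlD D (w j)).source]
        change H j (rA τ, max 0 (rB τ)) s = _
        rw [h1]
        change wl (fun x => D x (rB τ)) (w j) s = _
        rcases wl_apply (w j) s with ⟨x, s', K⟩ | K <;> rw [K, K] <;> rfl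
      h1 := by
        intro j s
        ext1 τ
        change H j (rA τ, max 1 (rB τ)) s = _
        rw [max_eq_left (show rB τ ≤ 1 from (rB τ).2.2), (H j).target]; rfl
      h2 := by
        intro j t
        ext1 τ
        exact (H j (rA τ, max t (rB τ))).source
      h3 := by
        intro j t
        ext1 τ
        exact (H j (rA τ, max t (rB τ))).target }
  obtain ⟨f, hf⟩ := desc Function.injective_id w d
  rw [contractible_iff_id_nullhomotopic]
  refine ⟨base id w, ⟨⟨⟨fun p => f p.2 p.1, by fun_prop⟩, ?_, ?_⟩⟩⟩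
  · rintro ⟨_, ⟨i, p⟩, rfl⟩
    change f ⟨_, mem_Cx id w i p⟩ 0 = ⟨_, mem_Cx id w i p⟩
    rw [hf]
    rcases i with _ | x | j
    · rfl
    · change D x (rB 0) p.2 = _
      rw [rB_zero, (D x).source]; rfl
    · change H j (rA 0, max p.1 (rB 0)) p.2 = _
      rw [rA_zero, rB_zero, max_eq_left (show (0 : I) ≤ p.1 from p.1.2.1), (H j).apply_one]
      rfl
  · rintro ⟨_, ⟨i, p⟩, rfl⟩
    change f ⟨_, mem_Cx id w i p⟩ 1 = base id w
    rw [hf]
    rcases i with _ | x | j
    · rfl
    · change D x (rB 1) p.2 = _
      rw [rB_one, (D x).target]; rfl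
    · change H j (rA 1, max p.1 (rB 1)) p.2 = _
      rw [rB_one, max_eq_right (show p.1 ≤ 1 from p.1.2.2), (H j).target]
      rfl

/-- Distance to the boundary of the square. -/
def dB (y : Fin 2 → I) : ℝ := min (min (y 0 : ℝ) (1 - y 0)) (min (y 1 : ℝ) (1 - y 1))

/-- Expansion of the square. -/
def clamp (τ : I) (y : Fin 2 → I) : Fin 2 → I :=
  fun i => projIcc 0 1 zero_le_one (((y i : ℝ) - τ / 4) / (1 - τ / 2))

theorem continuous_clamp : Continuous fun p : I × (Fin 2 → I) => clamp p.1 p.2 := by
  refine continuous_pi fun i => continuous_projIcc.comp (Continuous.div (by fun_prop)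
    (by fun_prop) fun p => ?_)
  have := p.1.2.2
  linarith

theorem clamp_mem (τ : I) (y : Fin 2 → I) (h : 4 * dB y ≤ τ) :
    clamp τ y ∈ Cube.boundary (Fin 2) := by
  have hτ : 0 < 1 - (τ : ℝ) / 2 := by have := τ.2.2; linarith
  have key : ∀ i, 4 * min (y i : ℝ) (1 - y i) ≤ τ → clamp τ y ∈ Cube.boundary (Fin 2) := by
    intro i hi
    refine ⟨i, ?_⟩
    rcases min_choice (y i : ℝ) (1 - y i) with k | k <;> rw [k] at hi
    · left
      exact projIcc_of_le_left _ (div_nonpos_of_nonpos_of_nonneg (by linarith) hτ.le)
    · right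
      exact projIcc_of_right_le _ ((le_div_iff₀ hτ).2 (by linarith))
  unfold dB at h
  rcases min_choice (min (y 0 : ℝ) (1 - y 0)) (min (y 1 : ℝ) (1 - y 1)) with k | k <;>
    rw [k] at h
  · exact key 0 h
  · exact key 1 h

theorem dB_boundary {y : Fin 2 → I} (h : y ∈ Cube.boundary (Fin 2)) : dB y ≤ 0 := by
  obtain ⟨i, hi⟩ := h
  unfold dB
  fin_cases i <;> rcases hi with hi | hi <;> simp at hi <;> simp [hi]

theorem pi2_subsingleton {L : Type} [TopologicalSpace L] [ContractibleSpace L] (x : L) :
    Subsingleton (π_ 2 L x) := by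
  obtain ⟨c, ⟨H⟩⟩ := id_nullhomotopic L
  let m : I × (Fin 2 → I) → I := fun p => projIcc 0 1 zero_le_one (min (p.1 : ℝ) (4 * dB p.2))
  have hm : Continuous m := continuous_projIcc.comp (by unfold dB; fun_prop)
  let E : C(Fin 2 → I, L) := ⟨fun y => H (m (1, y), x), by fun_prop⟩
  have key : ∀ f : GenLoop (Fin 2) L x, f.1.HomotopicRel E (Cube.boundary (Fin 2)) := by
    intro f
    refine ⟨⟨⟨⟨fun p => H (m p, f.1 (clamp p.1 p.2)), ?_⟩, ?_, ?_⟩, ?_⟩⟩
    · have := continuous_clamp
      fun_prop
    · intro y
      have h1 : m (0, y) = 0 := projIcc_of_le_left _ (min_le_left _ _)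
      have h2 : clamp 0 y = y := by
        funext i; simp [clamp]
      change H (m (0, y), f.1 (clamp 0 y)) = _
      rw [h1, h2, H.apply_zero]; rfl
    · intro y
      change H (m (1, y), f.1 (clamp 1 y)) = H (m (1, y), x)
      rcases le_total (4 * dB y) (1 : I) with h | h
      · rw [f.2 _ (clamp_mem 1 y h)]
      · have h1 : m (1, y) = 1 := projIcc_of_right_le _ (le_min le_rfl h)
        rw [h1, H.apply_one, H.apply_one]; rfl
    · intro τ y hy
      have h0 := dB_boundary hy
      have h1 : m (τ, y) = 0 := projIcc_of_le_left _ (min_le_of_right_le (by linarith))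
      change H (m (τ, y), f.1 (clamp τ y)) = _
      rw [h1, H.apply_zero, f.2 _ (clamp_mem τ y (by linarith [τ.2.1])), f.2 _ hy]; rfl
  constructor
  intro a b
  induction a using Quotient.inductionOn with | _ f => ?_
  induction b using Quotient.inductionOn with | _ g => ?_
  exact Quotient.sound ((key f).trans (key g).symm)

end Pool.Agent.P.MP_488119_gt
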