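import Pool.Agent.P.MP_488119_gt.Loop

open unitInterval Set

noncomputable section

namespace Pool.Agent.P.MP_488119_gt

variable {X J J₀ : Type}

/-- Data describing a map out of a presentation complex. -/
structure Data (w : J → List (X × Bool)) (Z : Type) [TopologicalSpace Z] where
  z : Z
  γ : X → Path z z
  h : J → C(I × I, Z)
  h0 : ∀ j s, h j (0, s) = wl γ (w j) s
  h1 : ∀ j s, h j (1, s) = z
  h2 : ∀ j t, h j (t, 0) = z
  h3 : ∀ j t, h j (t, 1) = z

/-- The value of the data on a cell. -/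
def Data.val {w : J → List (X × Bool)} {Z : Type} [TopologicalSpace Z] (d : Data w Z) :
    Option (X ⊕ J) → I × I → Z
  | none, _ => d.z
  | some (.inl x), p => d.γ x p.2
  | some (.inr j), p => d.h j p

theorem Data.continuous_val {w : J → List (X × Bool)} {Z : Type} [TopologicalSpace Z]
    (d : Data w Z) (i : Option (X ⊕ J)) : Continuous (d.val i) := by
  rcases i with _ | x | j
  · exact continuous_const
  · exact (d.γ x).continuous.comp continuous_snd
  · exact (d.h j).continuous

/-- Interior points of the unit interval. -/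
def Int01 (s : I) : Prop := 0 < (s : ℝ) ∧ (s : ℝ) < 1

theorem int01_or (s : I) : Int01 s ∨ s = 0 ∨ s = 1 := by
  by_cases h0 : s = 0
  · exact Or.inr (Or.inl h0)
  by_cases h1 : s = 1
  · exact Or.inr (Or.inr h1)
  left
  exact ⟨lt_of_le_of_ne s.2.1 (fun h => h0 (Subtype.ext h.symm)),
    lt_of_le_of_ne s.2.2 (fun h => h1 (Subtype.ext h))⟩

/-- Parameters of points of open cells. -/
def Good : Option (X ⊕ J) → I × I → Prop
  | none, p => p = (0, 0)
  | some (.inl _), p => p.1 = 0 ∧ Int01 p.2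
  | some (.inr _), p => Int01 p.1 ∧ Int01 p.2

/-- Dimension of a cell. -/
def dim : Option (X ⊕ J) → ℕ
  | none => 0
  | some (.inl _) => 1
  | some (.inr _) => 2

theorem nf_edge (w : J → List (X × Bool)) (x : X) (s : I) :
    ∃ i p, Good i p ∧ dim i ≤ 1 ∧ (¬ Int01 s → dim i < 1) ∧
      ∀ (Z : Type) [TopologicalSpace Z] (d : Data w Z), d.γ x s = d.val i p := by
  rcases int01_or s with h | rfl | rfl
  · exact ⟨some (.inl x), (0, s), ⟨rfl, h⟩, le_rfl, fun h' => absurd h h', fun Z _ d => rfl⟩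
  · exact ⟨none, (0, 0), rfl, zero_le_one, fun _ => zero_lt_one, fun Z _ d => (d.γ x).source⟩
  · exact ⟨none, (0, 0), rfl, zero_le_one, fun _ => zero_lt_one, fun Z _ d => (d.γ x).target⟩

theorem nf_face (w : J → List (X × Bool)) (j : J) (q : I × I) (hq : ¬ (Int01 q.1 ∧ Int01 q.2)) :
    ∃ i p, Good i p ∧ dim i < 2 ∧
      ∀ (Z : Type) [TopologicalSpace Z] (d : Data w Z), d.h j q = d.val i p := by
  obtain ⟨t, s⟩ := q
  rcases int01_or s with hs | rfl | rfl
  · rcases int01_or t with ht | rfl | rfl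
    · exact absurd ⟨ht, hs⟩ hq
    · rcases wl_apply (w j) s with ⟨x, s', H⟩ | H
      · obtain ⟨i, p, h1, h2, -, h4⟩ := nf_edge w x s'
        exact ⟨i, p, h1, by omega, fun Z _ d => by rw [d.h0, H, h4]⟩
      · exact ⟨none, (0, 0), rfl, zero_lt_two, fun Z _ d => by rw [d.h0, H]; rfl⟩
    · exact ⟨none, (0, 0), rfl, zero_lt_two, fun Z _ d => d.h1 j s⟩
  · exact ⟨none, (0, 0), rfl, zero_lt_two, fun Z _ d => d.h2 j t⟩
  · exact ⟨none, (0, 0), rfl, zero_lt_two, fun Z _ d => d.h3 j t⟩

theorem nf (w : J → List (X × Bool)) (i : Option (X ⊕ J)) (q : I × I) :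
    ∃ i' p, Good i' p ∧
      ∀ (Z : Type) [TopologicalSpace Z] (d : Data w Z), d.val i q = d.val i' p := by
  rcases i with _ | x | j
  · exact ⟨none, (0, 0), rfl, fun Z _ d => rfl⟩
  · obtain ⟨i, p, h1, -, -, h4⟩ := nf_edge w x q.2
    exact ⟨i, p, h1, h4⟩
  · by_cases hq : Int01 q.1 ∧ Int01 q.2
    · exact ⟨some (.inr j), q, hq, fun Z _ d => rfl⟩
    · obtain ⟨i, p, h1, -, h4⟩ := nf_face w j q hq
      exact ⟨i, p, h1, h4⟩

/-- The ambient space. -/
abbrev V (X J₀ : Type) : Type := (X → ℝ × ℝ) × (J₀ → ℝ × ℝ × ℝ)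

variable [DecidableEq X] [DecidableEq J₀]

/-- The edge loops. -/
def edge (J₀ : Type) (x : X) : Path (0 : V X J₀) 0 where
  toFun s := (Pi.single x ((s : ℝ) * (1 - s), (s : ℝ) * ((s : ℝ) * (1 - s))), 0)
  continuous_toFun := by
    refine Continuous.prodMk ?_ continuous_const
    exact (continuous_single (A := fun _ : X => ℝ × ℝ) x).comp (by fun_prop)
  source' := by simp [Prod.ext_iff]
  target' := by simp [Prod.ext_iff]

/-- The bump function of a square. -/
def bump (p : I × I) : ℝ := (p.1 : ℝ) * (1 - p.1) * ((p.2 : ℝ) * (1 - p.2))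

theorem bump_pos {p : I × I} (h : Int01 p.1 ∧ Int01 p.2) : 0 < bump p :=
  mul_pos (mul_pos h.1.1 (sub_pos.2 h.1.2)) (mul_pos h.2.1 (sub_pos.2 h.2.2))

/-- The geometric realisation of a presentation. -/
def geo (κ : J → J₀) (w : J → List (X × Bool)) : Data w (V X J₀) where
  z := 0
  γ := edge J₀
  h j := ⟨fun p => (1 - (p.1 : ℝ)) • wl (edge J₀) (w j) p.2 +
      (0, Pi.single (κ j) (bump p, (p.1 : ℝ) * bump p, (p.2 : ℝ) * bump p)), by
    refine Continuous.add (by fun_prop) (Continuous.prodMk continuous_const ?_)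
    refine (continuous_single (A := fun _ : J₀ => ℝ × ℝ × ℝ) (κ j)).comp ?_
    unfold bump; fun_prop⟩
  h0 j s := by simp [bump, Prod.ext_iff]
  h1 j s := by simp [bump, Prod.ext_iff]
  h2 j s := by simp [bump, Prod.ext_iff]
  h3 j s := by simp [bump, Prod.ext_iff]

omit [DecidableEq J₀] in
theorem wl_edge_snd (w : List (X × Bool)) (s : I) : (wl (edge J₀) w s).2 = 0 := by
  rcases wl_apply w s with ⟨x, s', H⟩ | H <;> rw [H] <;> rfl

theorem geo_face_snd (κ : J → J₀) (w : J → List (X × Bool)) (j : J) (p : I × I) :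
    ((geo κ w).val (some (.inr j)) p).2 =
      Pi.single (κ j) (bump p, (p.1 : ℝ) * bump p, (p.2 : ℝ) * bump p) := by
  simp [Data.val, geo, wl_edge_snd]

theorem geo_edge (κ : J → J₀) (w : J → List (X × Bool)) (x : X) (p : I × I) :
    (geo κ w).val (some (.inl x)) p =
      (Pi.single x ((p.2 : ℝ) * (1 - p.2), (p.2 : ℝ) * ((p.2 : ℝ) * (1 - p.2))), 0) := rfl

theorem geo_none (κ : J → J₀) (w : J → List (X × Bool)) (p : I × I) :
    (geo κ w).val none p = 0 := rfl

theorem geo_inj {κ : J → J₀} (hκ : Function.Injective κ) (w : J → List (X × Bool))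
    {i i' : Option (X ⊕ J)} {p p' : I × I} (hp : Good i p) (hp' : Good i' p')
    (h : (geo κ w).val i p = (geo κ w).val i' p') : i = i' ∧ p = p' := by
  have E : ∀ (x : X) (p : I × I), Good (J := J) (some (.inl x)) p →
      (((geo κ w).val (some (.inl x)) p).1 x).1 ≠ 0 := by
    intro x p hp
    rw [geo_edge]
    simpa using (mul_pos hp.2.1 (sub_pos.2 hp.2.2)).ne'
  have F : ∀ (j : J) (p : I × I), Good (X := X) (some (.inr j)) p →
      (((geo κ w).val (some (.inr j)) p).2 (κ j)).1 ≠ 0 := by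
    intro j p hp
    rw [geo_face_snd]
    simpa using (bump_pos hp).ne'
  rcases i with _ | x | j <;> rcases i' with _ | x' | j'
  · exact ⟨rfl, hp.trans hp'.symm⟩
  · exact absurd (by rw [← h]; rfl) (E _ _ hp')
  · exact absurd (by rw [← h]; rfl) (F _ _ hp')
  · exact absurd (by rw [h]; rfl) (E _ _ hp)
  · have h1 := E _ _ hp
    obtain rfl : x = x' := by
      by_contra hne
      rw [h, geo_edge] at h1
      simp [hne] at h1
    refine ⟨rfl, Prod.ext (hp.1.trans hp'.1.symm) (Subtype.ext ?_)⟩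
    have h2 := congrArg (fun v : V X J₀ => v.1 x) h
    simp only [geo_edge, Pi.single_eq_same, Prod.mk.injEq] at h2
    have h3 := (mul_pos hp.2.1 (sub_pos.2 hp.2.2)).ne'
    rw [← h2.1] at h2
    exact mul_right_cancel₀ h3 h2.2
  · exact absurd (by rw [← h]; rfl) (F _ _ hp')
  · exact absurd (by rw [h]; rfl) (F _ _ hp)
  · exact absurd (by rw [h]; rfl) (F _ _ hp)
  · have h1 := F _ _ hp
    obtain rfl : j = j' := by
      by_contra hne
      rw [h, geo_face_snd] at h1
      simp [hκ.ne hne] at h1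
    have h2 := congrArg (fun v : V X J₀ => v.2 (κ j)) h
    simp only [geo_face_snd, Pi.single_eq_same, Prod.mk.injEq] at h2
    have h3 := (bump_pos hp).ne'
    rw [← h2.1] at h2
    exact ⟨rfl, Prod.ext (Subtype.ext (mul_right_cancel₀ h3 h2.2.1))
      (Subtype.ext (mul_right_cancel₀ h3 h2.2.2))⟩

/-- The presentation complex as a subset of the ambient space. -/
def Cx (κ : J → J₀) (w : J → List (X × Bool)) : Set (V X J₀) :=
  range fun a : (Σ _ : Option (X ⊕ J), I × I) => (geo κ w).val a.1 a.2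

theorem mem_Cx (κ : J → J₀) (w : J → List (X × Bool)) (i : Option (X ⊕ J)) (p : I × I) :
    (geo κ w).val i p ∈ Cx κ w := ⟨⟨i, p⟩, rfl⟩

theorem isCompact_Cx [Finite X] [Finite J] (κ : J → J₀) (w : J → List (X × Bool)) :
    IsCompact (Cx κ w) :=
  isCompact_range (continuous_sigma fun i => (geo κ w).continuous_val i)

theorem desc [Finite X] [Finite J] {κ : J → J₀} (hκ : Function.Injective κ)
    (w : J → List (X × Bool)) {Z : Type} [TopologicalSpace Z] (d : Data w Z) :
    ∃ f : C(Cx κ w, Z), ∀ i p, f ⟨_, mem_Cx κ w i p⟩ = d.val i p := by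
  let q : (Σ _ : Option (X ⊕ J), I × I) → Cx κ w := fun a => ⟨_, mem_Cx κ w a.1 a.2⟩
  have hq : Continuous q :=
    (continuous_sigma fun i => (geo κ w).continuous_val i).subtype_mk _
  have hs : Function.Surjective q := by
    rintro ⟨_, a, rfl⟩; exact ⟨a, rfl⟩
  have hQ : Topology.IsQuotientMap q := hq.isClosedMap.isQuotientMap hq hs
  let f : Cx κ w → Z := fun v => d.val (Function.surjInv hs v).1 (Function.surjInv hs v).2
  have hf : ∀ a, f (q a) = d.val a.1 a.2 := by
    intro a
    have h1 : q (Function.surjInv hs (q a)) = q a := Function.surjInv_eq hs _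
    obtain ⟨i, p, h2, h3⟩ := nf w a.1 a.2
    obtain ⟨i', p', h2', h3'⟩ := nf w (Function.surjInv hs (q a)).1 (Function.surjInv hs (q a)).2
    have h4 : (geo κ w).val i' p' = (geo κ w).val i p := by
      rw [← h3, ← h3']; exact congrArg Subtype.val h1
    obtain ⟨rfl, rfl⟩ := geo_inj hκ w h2' h2 h4
    rw [h3, ← h3']
  refine ⟨⟨f, hQ.continuous_iff.2 ?_⟩, fun i p => hf ⟨i, p⟩⟩
  have : f ∘ q = fun a => d.val a.1 a.2 := funext hf
  rw [this]
  exact continuous_sigma fun i => d.continuous_val i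

/-- The base point. -/
def base (κ : J → J₀) (w : J → List (X × Bool)) : Cx κ w := ⟨_, mem_Cx κ w none (0, 0)⟩

/-- The edges as loops in the complex. -/
def edgeC (κ : J → J₀) (w : J → List (X × Bool)) (x : X) : Path (base κ w) (base κ w) where
  toFun s := ⟨_, mem_Cx κ w (some (.inl x)) (0, s)⟩
  continuous_toFun := (edge J₀ x).continuous.subtype_mk _
  source' := Subtype.ext (edge J₀ x).source
  target' := Subtype.ext (edge J₀ x).target

theorem wl_edgeC (κ : J → J₀) (w : J → List (X × Bool)) (v : List (X × Bool)) (s : I) :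
    (wl (edgeC κ w) v s : V X J₀) = wl (edge J₀) v s := by
  rcases wl_apply v s with ⟨x, s', H⟩ | H <;> rw [H, H] <;> rfl

/-- The 2-cells as null-homotopies. -/
def faceC (κ : J → J₀) (w : J → List (X × Bool)) (j : J) :
    Path (wl (edgeC κ w) (w j)) (Path.refl (base κ w)) where
  toFun t :=
    { toFun := fun s => ⟨_, mem_Cx κ w (some (.inr j)) (t, s)⟩
      continuous_toFun := (((geo κ w).h j).continuous.comp (by fun_prop)).subtype_mk _
      source' := Subtype.ext ((geo κ w).h2 j t)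
      target' := Subtype.ext ((geo κ w).h3 j t) }
  continuous_toFun := Path.continuous_uncurry_iff.mp (((geo κ w).h j).continuous.subtype_mk _)
  source' := by
    ext1; funext s
    exact Subtype.ext (((geo κ w).h0 j s).trans (wl_edgeC κ w _ s).symm)
  target' := by
    ext1; funext s
    exact Subtype.ext ((geo κ w).h1 j s)

theorem isConnected_Cx (κ : J → J₀) (w : J → List (X × Bool)) : IsConnected (Cx κ w) := by
  refine ⟨⟨_, mem_Cx κ w none (0, 0)⟩, isPreconnected_of_forall (0 : V X J₀) ?_⟩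
  rintro _ ⟨⟨i, p⟩, rfl⟩
  refine ⟨range ((geo κ w).val i), ?_, ⟨(0, 0), ?_⟩, ⟨p, rfl⟩,
    isPreconnected_range ((geo κ w).continuous_val i)⟩
  · rintro _ ⟨p, rfl⟩; exact mem_Cx κ w i p
  · rcases i with _ | x | j
    · rfl
    · exact (edge J₀ x).source
    · exact (geo κ w).h2 j 0

end Pool.Agent.P.MP_488119_gt
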