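import Mathlib

noncomputable section

namespace Pool.Agent.P.MP_488119_gt

/-- Affine transformations of a free module over a group ring. -/
@[ext] structure Af (G X : Type) [Group G] where
  v : X → MonoidAlgebra ℤ G
  g : G

variable {G X : Type} [Group G]

instance : Mul (Af G X) := ⟨fun x y => ⟨x.v + MonoidAlgebra.of ℤ G x.g • y.v, x.g * y.g⟩⟩
instance : One (Af G X) := ⟨⟨0, 1⟩⟩
instance : Inv (Af G X) := ⟨fun x => ⟨-(MonoidAlgebra.of ℤ G x.g⁻¹ • x.v), x.g⁻¹⟩⟩

theorem Af.mul_v (x y : Af G X) : (x * y).v = x.v + MonoidAlgebra.of ℤ G x.g • y.v := rfl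
theorem Af.mul_g (x y : Af G X) : (x * y).g = x.g * y.g := rfl
theorem Af.one_v : (1 : Af G X).v = 0 := rfl
theorem Af.one_g : (1 : Af G X).g = 1 := rfl
theorem Af.inv_v (x : Af G X) : (x⁻¹).v = -(MonoidAlgebra.of ℤ G x.g⁻¹ • x.v) := rfl
theorem Af.inv_g (x : Af G X) : (x⁻¹).g = x.g⁻¹ := rfl

instance : Group (Af G X) := Group.ofLeftAxioms
  (fun x y z => Af.ext (by
    simp only [Af.mul_v, Af.mul_g, map_mul, smul_add, mul_smul, add_assoc]) (mul_assoc _ _ _))
  (fun x => Af.ext (by rw [Af.mul_v, Af.one_v, Af.one_g, map_one, one_smul, zero_add]) (one_mul _))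
  (fun x => Af.ext (by rw [Af.mul_v, Af.inv_v, Af.inv_g, neg_add_cancel, Af.one_v])
    (inv_mul_cancel _))

variable [DecidableEq X]

/-- The Magnus homomorphism. -/
def mag (π : FreeGroup X →* G) : FreeGroup X →* Af G X :=
  FreeGroup.lift fun x => ⟨Pi.single x 1, π (FreeGroup.of x)⟩

theorem mag_g (π : FreeGroup X →* G) (f : FreeGroup X) : (mag π f).g = π f := by
  let p : Af G X →* G := ⟨⟨Af.g, rfl⟩, fun _ _ => rfl⟩
  have : p.comp (mag π) = π := by
    ext x
    simp [p, mag]
  exact DFunLike.congr_fun this f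

/-- The Fox derivative. -/
def fd (π : FreeGroup X →* G) (f : FreeGroup X) : X → MonoidAlgebra ℤ G := (mag π f).v

theorem fd_mul (π : FreeGroup X →* G) (f f' : FreeGroup X) :
    fd π (f * f') = fd π f + MonoidAlgebra.of ℤ G (π f) • fd π f' := by
  rw [fd, map_mul, Af.mul_v, mag_g]; rfl

theorem fd_one (π : FreeGroup X →* G) : fd π 1 = 0 := by rw [fd, map_one]; rfl

theorem fd_inv (π : FreeGroup X →* G) (f : FreeGroup X) :
    fd π f⁻¹ = -(MonoidAlgebra.of ℤ G (π f)⁻¹ • fd π f) := by
  rw [fd, map_inv, Af.inv_v, mag_g]; rfl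

theorem fd_of (π : FreeGroup X →* G) (x : X) : fd π (FreeGroup.of x) = Pi.single x 1 := by
  simp [fd, mag]

theorem fd_conj (π : FreeGroup X →* G) (f p : FreeGroup X) (hp : π p = 1) :
    fd π (f * p * f⁻¹) = MonoidAlgebra.of ℤ G (π f) • fd π p := by
  rw [fd_mul, fd_mul, fd_inv, map_mul π, hp, mul_one, smul_neg, ← mul_smul, ← map_mul,
    mul_inv_cancel, map_one, one_smul]
  abel

variable [Fintype X]

/-- The first boundary map. -/
def d1 (π : FreeGroup X →* G) :
    (X → MonoidAlgebra ℤ G) →ₗ[MonoidAlgebra ℤ G] MonoidAlgebra ℤ G :=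
  Fintype.linearCombination _ fun x => MonoidAlgebra.of ℤ G (π (FreeGroup.of x)) - 1

theorem d1_single (π : FreeGroup X →* G) (x : X) (a : MonoidAlgebra ℤ G) :
    d1 π (Pi.single x a) = a * (MonoidAlgebra.of ℤ G (π (FreeGroup.of x)) - 1) := by
  rw [d1, Fintype.linearCombination_apply_single, smul_eq_mul]

theorem d1_fd (π : FreeGroup X →* G) (f : FreeGroup X) :
    d1 π (fd π f) = MonoidAlgebra.of ℤ G (π f) - 1 := by
  induction f using FreeGroup.induction_on with
  | C1 => rw [fd_one, map_zero, map_one, map_one, sub_self]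
  | of x => rw [fd_of, d1_single, one_mul]
  | inv_of x h =>
    rw [fd_inv, map_neg, map_smul, h, smul_eq_mul, mul_sub, ← map_mul, inv_mul_cancel, map_one,
      map_inv π, mul_one, neg_sub]
  | mul f f' h h' =>
    rw [fd_mul, map_add, map_smul, h, h', smul_eq_mul, mul_sub, map_mul π, map_mul, mul_one]
    abel

theorem exact_zero (π : FreeGroup X →* G) (hπ : Function.Surjective π) :
    Function.Exact (d1 π) (MonoidAlgebra.lift ℤ ℤ G 1) := by
  have h1 : ∀ a : MonoidAlgebra ℤ G,
      a - (MonoidAlgebra.lift ℤ ℤ G 1 a) • 1 ∈ LinearMap.range (d1 π) := by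
    intro a
    induction a using MonoidAlgebra.induction_on with
    | of g =>
      obtain ⟨f, rfl⟩ := hπ g
      exact ⟨fd π f, by rw [d1_fd, MonoidAlgebra.lift_of]; simp⟩
    | add a b ha hb =>
      rw [map_add, add_smul, ← sub_add_sub_comm]
      exact add_mem ha hb
    | smul r a ha =>
      rw [map_smul, smul_assoc, ← smul_sub]
      exact Submodule.smul_of_tower_mem _ r ha
  intro a
  constructor
  · intro ha
    have := h1 a
    rwa [ha, zero_smul, sub_zero] at this
  · rintro ⟨v, rfl⟩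
    rw [d1, Fintype.linearCombination_apply, map_sum]
    refine Finset.sum_eq_zero fun x _ => ?_
    rw [smul_eq_mul, map_mul, map_sub, MonoidAlgebra.lift_of]
    simp

theorem ker_d1_le (π : FreeGroup X →* G) (hπ : Function.Surjective π)
    (M : Submodule (MonoidAlgebra ℤ G) (X → MonoidAlgebra ℤ G))
    (hM : ∀ p, π p = 1 → fd π p ∈ M) (v : X → MonoidAlgebra ℤ G) (hv : d1 π v = 0) : v ∈ M := by
  choose σ hσ using hπ
  have h1 : ∀ f, M.mkQ (fd π f) = M.mkQ (fd π (σ (π f))) := by
    intro f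
    have h2 : π (f * (σ (π f))⁻¹) = 1 := by rw [map_mul, map_inv, hσ, mul_inv_cancel]
    have h3 := fd_mul π (f * (σ (π f))⁻¹) (σ (π f))
    rw [inv_mul_cancel_right, h2, map_one, one_smul] at h3
    rw [h3, map_add, Submodule.mkQ_apply, (Submodule.Quotient.mk_eq_zero M).2 (hM _ h2), zero_add]
  let Ψ : MonoidAlgebra ℤ G →+ (X → MonoidAlgebra ℤ G) ⧸ M :=
    (Finsupp.liftAddHom fun g => zmultiplesHom _ (M.mkQ (fd π (σ g)))).comp
      MonoidAlgebra.coeffAddEquiv.toAddMonoidHom
  have hΨ : ∀ g (n : ℤ), Ψ (MonoidAlgebra.single g n) = n • M.mkQ (fd π (σ g)) := fun g n =>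
    Finsupp.liftAddHom_apply_single _ _ _
  have h2 : ∀ x a, Ψ (d1 π (Pi.single x a)) = M.mkQ (Pi.single x a) := by
    intro x a
    induction a using MonoidAlgebra.induction_on with
    | of g =>
      rw [d1_single, mul_sub, mul_one, ← map_mul, map_sub, MonoidAlgebra.of_apply,
        MonoidAlgebra.of_apply, hΨ, hΨ, one_smul, one_smul]
      have h3 := h1 (σ g * FreeGroup.of x)
      rw [map_mul, hσ] at h3
      rw [← h3, fd_mul, map_add, hσ, fd_of, add_sub_cancel_left, ← Pi.single_smul, smul_eq_mul,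
        mul_one, MonoidAlgebra.of_apply]
    | add a b ha hb => rw [Pi.single_add, map_add, map_add, map_add, ha, hb]
    | smul r a ha => rw [Pi.single_smul, map_zsmul, map_zsmul, map_zsmul, ha]
  have h3 : Ψ (d1 π v) = M.mkQ v := by
    rw [← Finset.univ_sum_single v, map_sum, map_sum, map_sum]
    exact Finset.sum_congr rfl fun x _ => h2 x _
  rw [hv, map_zero] at h3
  exact (Submodule.Quotient.mk_eq_zero M).1 h3.symm

theorem exact_one (π : FreeGroup X →* G) (hπ : Function.Surjective π) (s : FreeGroup X)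
    (hs : π.ker = Subgroup.normalClosure {s} ⊔ ⁅π.ker, π.ker⁆) :
    Function.Exact (LinearMap.toSpanSingleton (MonoidAlgebra ℤ G) _ (fd π s)) (d1 π) := by
  have hs1 : π s = 1 := by
    rw [← MonoidHom.mem_ker, hs]
    exact Subgroup.mem_sup_left (Subgroup.subset_normalClosure rfl)
  intro v
  constructor
  · intro hv
    set M := LinearMap.range (LinearMap.toSpanSingleton (MonoidAlgebra ℤ G) _ (fd π s))
    let K : Subgroup (FreeGroup X) :=
      { carrier := {p | π p = 1 ∧ fd π p ∈ M}
        mul_mem' := fun {a b} ha hb => ⟨by rw [map_mul, ha.1, hb.1, one_mul], by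
          rw [fd_mul]; exact add_mem ha.2 (M.smul_mem _ hb.2)⟩
        one_mem' := ⟨map_one _, by rw [fd_one]; exact zero_mem _⟩
        inv_mem' := fun {a} ha => ⟨by rw [map_inv, ha.1, inv_one], by
          rw [fd_inv]; exact neg_mem (M.smul_mem _ ha.2)⟩ }
    have : K.Normal := ⟨fun p hp f => ⟨by simp [hp.1], by
      rw [fd_conj π f p hp.1]; exact M.smul_mem _ hp.2⟩⟩
    have hK : π.ker ≤ K := by
      rw [hs]
      refine sup_le (Subgroup.normalClosure_le_normal ?_) (Subgroup.commutator_le.2 ?_)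
      · rintro _ rfl
        exact ⟨hs1, 1, one_smul _ _⟩
      · intro a ha b hb
        rw [MonoidHom.mem_ker] at ha hb
        refine ⟨by simp [commutatorElement_def, ha, hb], ?_⟩
        rw [commutatorElement_def, fd_mul, fd_conj π a b hb, fd_inv]
        simp only [map_mul, map_inv, ha, hb, inv_one, map_one, one_smul, mul_one, add_neg_cancel]
        exact zero_mem _
    exact ker_d1_le π hπ M (fun p hp => (hK hp).2) v hv
  · rintro ⟨a, rfl⟩
    rw [LinearMap.toSpanSingleton_apply, map_smul, d1_fd, hs1, map_one, sub_self, smul_zero]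

end Pool.Agent.P.MP_488119_gt
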