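import Mathlib

open unitInterval

noncomputable section

namespace Pool.Agent.P.MP_488119_gt

variable {X : Type} {Y : Type} [TopologicalSpace Y] {y : Y}

/-- The loop spelled by a word in a family of loops. -/
def wl (γ : X → Path y y) : List (X × Bool) → Path y y
  | [] => Path.refl y
  | l :: w => (wl γ w).trans (cond l.2 (γ l.1) (γ l.1).symm)

/-- The class of a loop in the fundamental group. -/
def cls (p : Path y y) : FundamentalGroup Y y := Path.Homotopic.Quotient.mk p

theorem cls_eq_iff {p q : Path y y} : cls p = cls q ↔ p.Homotopic q :=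
  Path.Homotopic.Quotient.eq

theorem cls_trans (p q : Path y y) : cls (p.trans q) = cls q * cls p := rfl

theorem cls_symm (p : Path y y) : cls p.symm = (cls p)⁻¹ := rfl

theorem cls_refl : cls (Path.refl y) = 1 := rfl

theorem cls_surj (a : FundamentalGroup Y y) : ∃ p, cls p = a :=
  Path.Homotopic.Quotient.mk_surjective a

theorem cls_wl (γ : X → Path y y) (w : List (X × Bool)) :
    cls (wl γ w) = FreeGroup.lift (fun x => cls (γ x)) (FreeGroup.mk w) := by
  rw [FreeGroup.lift_mk]
  induction w with
  | nil => rfl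
  | cons l w ih =>
    rw [List.map_cons, List.prod_cons, ← ih, wl, cls_trans]
    congr 1
    rcases l with ⟨x, _ | _⟩ <;> rfl

theorem wl_apply (w : List (X × Bool)) (s : I) :
    (∃ (x : X) (s' : I), ∀ (Z : Type) [TopologicalSpace Z] (z : Z) (γ : X → Path z z),
      wl γ w s = γ x s') ∨
    (∀ (Z : Type) [TopologicalSpace Z] (z : Z) (γ : X → Path z z), wl γ w s = z) := by
  induction w generalizing s with
  | nil => right; intro Z _ z γ; rfl
  | cons l w ih =>
    by_cases h : (s : ℝ) ≤ 1 / 2
    · rcases ih ⟨2 * s, (mul_pos_mem_iff zero_lt_two).2 ⟨s.2.1, h⟩⟩ with ⟨x, s', H⟩ | H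
      · left; refine ⟨x, s', fun Z _ z γ => ?_⟩
        rw [wl, Path.trans_apply, dif_pos h, H]
      · right; intro Z _ z γ
        rw [wl, Path.trans_apply, dif_pos h, H]
    · left
      rcases l with ⟨x, _ | _⟩
      · refine ⟨x, σ ⟨2 * s - 1, two_mul_sub_one_mem_iff.2 ⟨(not_le.1 h).le, s.2.2⟩⟩,
          fun Z _ z γ => ?_⟩
        rw [wl, Path.trans_apply, dif_neg h]; rfl
      · refine ⟨x, ⟨2 * s - 1, two_mul_sub_one_mem_iff.2 ⟨(not_le.1 h).le, s.2.2⟩⟩,
          fun Z _ z γ => ?_⟩
        rw [wl, Path.trans_apply, dif_neg h]; rfl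

theorem wl_refl (w : List (X × Bool)) : wl (fun _ : X => Path.refl y) w = Path.refl y := by
  ext s
  rcases wl_apply w s with ⟨x, s', H⟩ | H <;> rw [H] <;> rfl

theorem continuous_wl (w : List (X × Bool)) :
    Continuous (fun γ : X → Path y y => wl γ w) := by
  induction w with
  | nil => exact continuous_const
  | cons l w ih =>
    refine Continuous.path_trans ih ?_
    rcases l with ⟨x, _ | _⟩
    · exact Path.continuous_symm.comp (continuous_apply x)
    · exact continuous_apply x

/-- A family of null-homotopies of the letters gives a null-homotopy of the word. -/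
def wlD {γ : X → Path y y} (D : ∀ x, Path (γ x) (Path.refl y)) (w : List (X × Bool)) :
    Path (wl γ w) (Path.refl y) where
  toFun τ := wl (fun x => D x τ) w
  continuous_toFun := (continuous_wl w).comp (continuous_pi fun x => (D x).continuous)
  source' := by simp
  target' := by simp [wl_refl]

/-- The same for loops of loops. -/
def wlL (θ : X → Path (Path.refl y) (Path.refl y)) (w : List (X × Bool)) :
    Path (Path.refl y) (Path.refl y) where
  toFun τ := wl (fun x => θ x τ) w
  continuous_toFun := (continuous_wl w).comp (continuous_pi fun x => (θ x).continuous)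
  source' := by simp [wl_refl]
  target' := by simp [wl_refl]

theorem wlD_trans {γ : X → Path y y} (D : ∀ x, Path (γ x) (Path.refl y))
    (θ : X → Path (Path.refl y) (Path.refl y)) (w : List (X × Bool)) :
    wlD (fun x => (D x).trans (θ x)) w = (wlD D w).trans (wlL θ w) := by
  ext1; funext τ
  rw [Path.trans_apply]
  change wl (fun x => ((D x).trans (θ x)) τ) w = _
  simp only [Path.trans_apply]
  split_ifs <;> rfl

/-- Pointwise concatenation of loops of loops. -/
def mu (θ θ' : Path (Path.refl y) (Path.refl y)) : Path (Path.refl y) (Path.refl y) where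
  toFun τ := (θ τ).trans (θ' τ)
  continuous_toFun := θ.continuous.path_trans θ'.continuous
  source' := by simp
  target' := by simp

/-- Pointwise reversal of a loop of loops. -/
def nu (θ : Path (Path.refl y) (Path.refl y)) : Path (Path.refl y) (Path.refl y) where
  toFun τ := (θ τ).symm
  continuous_toFun := Path.continuous_symm.comp θ.continuous
  source' := by simp
  target' := by simp

theorem mu_homotopic {a a' b b' : Path (Path.refl y) (Path.refl y)} (h : a.Homotopic a')
    (k : b.Homotopic b') : (mu a b).Homotopic (mu a' b') := by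
  obtain ⟨H⟩ := h
  obtain ⟨K⟩ := k
  refine ⟨⟨⟨⟨fun p => (H p).trans (K p), H.continuous.path_trans K.continuous⟩, ?_, ?_⟩, ?_⟩⟩
  · intro τ; simp [mu]
  · intro τ; simp [mu]
  · intro t τ hτ
    rcases hτ with rfl | rfl <;> simp

theorem mu_trans (a a' b b' : Path (Path.refl y) (Path.refl y)) :
    mu (a.trans a') (b.trans b') = (mu a b).trans (mu a' b') := by
  ext1; funext τ
  rw [Path.trans_apply]
  change ((a.trans a') τ).trans ((b.trans b') τ) = _
  simp only [Path.trans_apply]
  split_ifs <;> rfl

theorem mu_refl_right (a : Path (Path.refl y) (Path.refl y)) :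
    (mu a (Path.refl _)).Homotopic a := by
  refine ⟨⟨⟨⟨fun p => Path.delayReflRight p.1 (a p.2), Path.continuous_delayReflRight.comp
    (continuous_fst.prodMk (a.continuous.comp continuous_snd))⟩, ?_, ?_⟩, ?_⟩⟩
  · intro τ; simp [mu, Path.delayReflRight_zero]
  · intro τ; simp [Path.delayReflRight_one]
  · intro t τ hτ
    rcases hτ with rfl | rfl <;> simp <;> rfl

theorem mu_refl_left (a : Path (Path.refl y) (Path.refl y)) :
    (mu (Path.refl _) a).Homotopic a := by
  refine ⟨⟨⟨⟨fun p => Path.delayReflLeft p.1 (a p.2), Path.continuous_delayReflLeft.comp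
    (continuous_fst.prodMk (a.continuous.comp continuous_snd))⟩, ?_, ?_⟩, ?_⟩⟩
  · intro τ; simp [mu, Path.delayReflLeft_zero]
  · intro τ; simp [Path.delayReflLeft_one]
  · intro t τ hτ
    rcases hτ with rfl | rfl <;> simp <;> rfl

theorem cls_mu (a b : Path (Path.refl y) (Path.refl y)) : cls (mu a b) = cls b * cls a := by
  have h1 : (mu a b).Homotopic (mu (a.trans (Path.refl _)) ((Path.refl _).trans b)) :=
    mu_homotopic ⟨(Path.Homotopy.transRefl a).symm⟩ ⟨(Path.Homotopy.reflTrans b).symm⟩
  rw [cls_eq_iff.2 h1, mu_trans, cls_trans, cls_eq_iff.2 (mu_refl_left b),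
    cls_eq_iff.2 (mu_refl_right a)]

theorem cls_mu' (a b : Path (Path.refl y) (Path.refl y)) : cls (mu a b) = cls a * cls b := by
  have h1 : (mu a b).Homotopic (mu ((Path.refl _).trans a) (b.trans (Path.refl _))) :=
    mu_homotopic ⟨(Path.Homotopy.reflTrans a).symm⟩ ⟨(Path.Homotopy.transRefl b).symm⟩
  rw [cls_eq_iff.2 h1, mu_trans, cls_trans, cls_eq_iff.2 (mu_refl_left b),
    cls_eq_iff.2 (mu_refl_right a)]

theorem cls_mu_nu (a : Path (Path.refl y) (Path.refl y)) : cls (mu a (nu a)) = 1 := by
  rw [← cls_refl, eq_comm, cls_eq_iff]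
  refine ⟨⟨⟨⟨fun p => (Path.Homotopy.reflTransSymm (a p.2)).eval p.1, ?_⟩, ?_, ?_⟩, ?_⟩⟩
  · refine Path.continuous_uncurry_iff.mp ?_
    change Continuous fun q : (I × I) × I => a q.1.2
      ⟨Path.Homotopy.reflTransSymmAux (q.1.1, q.2), Path.Homotopy.reflTransSymmAux_mem_I _⟩
    fun_prop
  · intro τ; simp
  · intro τ; simp [mu, nu]
  · intro t τ hτ
    have h : a τ = Path.refl y := by rcases hτ with rfl | rfl <;> simp
    change (Path.Homotopy.reflTransSymm (a τ)).eval t = _
    rw [h]; rfl

theorem cls_nu (a : Path (Path.refl y) (Path.refl y)) : cls (nu a) = (cls a)⁻¹ := by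
  have := cls_mu_nu a
  rw [cls_mu'] at this
  exact (eq_inv_of_mul_eq_one_right this)

theorem pi2_comm (a b : FundamentalGroup (Path y y) (Path.refl y)) : a * b = b * a := by
  obtain ⟨a, rfl⟩ := cls_surj a
  obtain ⟨b, rfl⟩ := cls_surj b
  rw [← cls_mu', cls_mu]

theorem cls_wlL (θ : X → Path (Path.refl y) (Path.refl y)) (w : List (X × Bool)) :
    cls (wlL θ w) = FreeGroup.lift (fun x => cls (θ x)) (FreeGroup.mk w) := by
  rw [FreeGroup.lift_mk]
  induction w with
  | nil => rfl
  | cons l w ih =>
    rw [List.map_cons, List.prod_cons, ← ih]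
    rcases l with ⟨x, _ | _⟩
    · have : wlL θ ((x, false) :: w) = mu (wlL θ w) (nu (θ x)) := rfl
      rw [this, cls_mu, cls_nu]; rfl
    · have : wlL θ ((x, true) :: w) = mu (wlL θ w) (θ x) := rfl
      rw [this, cls_mu]; rfl

/-- For a balanced presentation of the trivial group the exponent system is solvable in every
commutative group. -/
theorem solve_comm [Finite X] {A : Type} [CommGroup A] (r : X → FreeGroup X)
    (hr : Subgroup.normalClosure (Set.range r) = ⊤) (δ : X → A) :
    ∃ a : X → A, ∀ j, FreeGroup.lift a (r j) = δ j := by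
  let π : FreeGroup X →* Multiplicative (FreeAbelianGroup X) :=
    FreeGroup.lift fun x => Multiplicative.ofAdd (FreeAbelianGroup.of x)
  let f : FreeAbelianGroup X →+ FreeAbelianGroup X :=
    FreeAbelianGroup.lift fun j => Multiplicative.toAdd (π (r j))
  have hsurj : Function.Surjective f := by
    have h1 : ∀ g : FreeGroup X, Multiplicative.toAdd (π g) ∈ f.range := by
      intro g
      have : g ∈ (AddSubgroup.toSubgroup f.range).comap π := by
        apply Subgroup.normalClosure_le_normal (s := Set.range r)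
        · rintro _ ⟨j, rfl⟩
          exact ⟨FreeAbelianGroup.of j, by simp [f]⟩
        · rw [hr]; trivial
      exact this
    intro z
    change z ∈ f.range
    induction z using FreeAbelianGroup.induction_on with
    | zero => exact zero_mem _
    | of x => simpa [π] using h1 (FreeGroup.of x)
    | neg x h => exact neg_mem h
    | add a b ha hb => exact add_mem ha hb
  have hinj : Function.Injective f :=
    OrzechProperty.injective_of_surjective_endomorphism f.toIntLinearMap hsurj
  let e := AddEquiv.ofBijective f ⟨hinj, hsurj⟩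
  let d : FreeAbelianGroup X →+ Additive A :=
    (FreeAbelianGroup.lift fun j => Additive.ofMul (δ j)).comp e.symm.toAddMonoidHom
  refine ⟨fun x => Additive.toMul (d (FreeAbelianGroup.of x)), fun j => ?_⟩
  have h2 : FreeGroup.lift (fun x => Additive.toMul (d (FreeAbelianGroup.of x))) =
      (AddMonoidHom.toMultiplicativeLeft d).comp π := by
    ext x; simp [π]
  rw [h2]
  have h3 : Multiplicative.toAdd (π (r j)) = e (FreeAbelianGroup.of j) := by
    rw [show e (FreeAbelianGroup.of j) = f (FreeAbelianGroup.of j) from rfl]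
    simp [f]
  simp [d, h3]

/-- The key step: null-homotopies of the edges can be chosen compatibly with all 2-cells. -/
theorem exists_D [Finite X] (γ : X → Path y y) (w : X → List (X × Bool))
    (hw : Subgroup.normalClosure (Set.range fun j => FreeGroup.mk (w j)) = ⊤)
    (Φ : ∀ j, Path (wl γ (w j)) (Path.refl y)) :
    ∃ D : ∀ x, Path (γ x) (Path.refl y), ∀ j, (wlD D (w j)).Homotopic (Φ j) := by
  have h0 : ∀ j, cls (wl γ (w j)) = 1 := by
    intro j
    rw [← cls_refl, cls_eq_iff]
    refine ⟨⟨⟨⟨fun p => Φ j p.1 p.2, by fun_prop⟩, ?_, ?_⟩, ?_⟩⟩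
    · intro s; simp
    · intro s; simp
    · intro t s hs
      rcases hs with rfl | rfl <;> simp
  have h1 : ∀ x, Nonempty (Path (γ x) (Path.refl y)) := by
    intro x
    have : FreeGroup.of x ∈ (FreeGroup.lift (fun x => cls (γ x))).ker := by
      apply Subgroup.normalClosure_le_normal (s := Set.range fun j => FreeGroup.mk (w j))
      · rintro _ ⟨j, rfl⟩
        rw [SetLike.mem_coe, MonoidHom.mem_ker, ← cls_wl, h0]
      · rw [hw]; trivial
    rw [MonoidHom.mem_ker, FreeGroup.lift_apply_of, ← cls_refl, cls_eq_iff] at this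
    obtain ⟨H⟩ := this
    refine ⟨⟨⟨fun t => H.eval t, ?_⟩, H.eval_zero, H.eval_one⟩⟩
    exact Path.continuous_uncurry_iff.mp H.continuous
  let D0 : ∀ x, Path (γ x) (Path.refl y) := fun x => (h1 x).some
  let _ : CommGroup (FundamentalGroup (Path y y) (Path.refl y)) :=
    { (inferInstance : Group (FundamentalGroup (Path y y) (Path.refl y))) with
      mul_comm := pi2_comm }
  obtain ⟨a, ha⟩ := solve_comm (A := FundamentalGroup (Path y y) (Path.refl y)) _ hw
    (fun j => cls ((wlD D0 (w j)).symm.trans (Φ j)))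
  choose θ hθ using fun x => cls_surj (a x)
  refine ⟨fun x => (D0 x).trans (θ x), fun j => ?_⟩
  rw [wlD_trans]
  have h2 : (wlL θ (w j)).Homotopic ((wlD D0 (w j)).symm.trans (Φ j)) := by
    rw [← cls_eq_iff, cls_wlL, ← ha j]
    simp only [hθ]
  refine ((Path.Homotopic.refl _).hcomp h2).trans ?_
  refine (Path.Homotopic.symm ⟨Path.Homotopy.transAssoc _ _ _⟩).trans ?_
  refine (Path.Homotopic.hcomp (Path.Homotopic.symm ⟨Path.Homotopy.reflTransSymm _⟩)
    (Path.Homotopic.refl _)).trans ⟨Path.Homotopy.reflTrans _⟩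

end Pool.Agent.P.MP_488119_gt
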