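import Pool.Agent.P.MP_488119_gt.CW
import Pool.Agent.P.MP_488119_gt.Contr
import Pool.Agent.P.MP_488119_gt.BQ
import Pool.Agent.P.MP_488119_gt.Alg

open Topology

noncomputable section

namespace Pool.Agent.P.MP_488119_gt

theorem counterexample_of_presentation (n : ℕ) (r : Fin n → FreeGroup (Fin (n + 1)))
    (e : PresentedGroup (Set.range r) ≃* PresentedGroup SS) :
    ∃ (X : Type) (_ : TopologicalSpace X) (_ : T2Space X) (L : Set X) (_ : CWComplex L),
      RelCWComplex.Finite L ∧ (∀ n, 2 < n → IsEmpty (RelCWComplex.cell L n)) ∧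
      ContractibleSpace L ∧ (∀ x : L, Subsingleton (π_ 2 L x)) ∧
      ∃ K : RelCWComplex.Subcomplex L, IsConnected (K : Set X) ∧
        ∃ (x : (K : Set X)) (g : FundamentalGroup (K : Set X) x), g ≠ 1 ∧ IsOfFinOrder g := by
  obtain ⟨τ, hτ⟩ := PresentedGroup.mk_surjective (Set.range r)
    (e.symm (PresentedGroup.mk SS (FreeGroup.of 1)))
  obtain ⟨υ, hυ⟩ := PresentedGroup.mk_surjective (Set.range r)
    (e.symm (PresentedGroup.mk SS (FreeGroup.of 0)))
  let w : Fin (n + 1) → List (Fin (n + 1) × Bool) := Fin.cons τ.toWord fun j => (r j).toWord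
  have hw0 : FreeGroup.mk (w 0) = τ := FreeGroup.mk_toWord
  have hw1 : ∀ j, FreeGroup.mk ((w ∘ Fin.succ) j) = r j := fun j => FreeGroup.mk_toWord
  have hw : Subgroup.normalClosure (Set.range fun j => FreeGroup.mk (w j)) = ⊤ := by
    set N := Subgroup.normalClosure (Set.range fun j => FreeGroup.mk (w j))
    have hN : Subgroup.normalClosure (Set.range r) ≤ (QuotientGroup.mk' N).ker := by
      rw [QuotientGroup.ker_mk']
      apply Subgroup.normalClosure_mono
      rintro _ ⟨j, rfl⟩
      exact ⟨j.succ, hw1 j⟩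
    let ρ : PresentedGroup (Set.range r) →* FreeGroup (Fin (n + 1)) ⧸ N :=
      QuotientGroup.lift _ (QuotientGroup.mk' N) hN
    have hρ : ∀ y, ρ (PresentedGroup.mk _ y) = QuotientGroup.mk' N y := fun y => rfl
    have h1 := weight_one ((ρ.comp e.symm.toMonoidHom).comp (PresentedGroup.mk SS))
      (by
        change ρ (e.symm (PresentedGroup.mk SS (FreeGroup.of 1))) = 1
        rw [← hτ, hρ]
        exact (QuotientGroup.eq_one_iff _).2 (Subgroup.subset_normalClosure ⟨0, hw0⟩))
      (by
        change ρ (e.symm (PresentedGroup.mk SS (ev th sw))) = 1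
        rw [PresentedGroup.mk_eq_one_iff.2 sw_mem, map_one, map_one])
    rw [eq_top_iff]
    intro y _
    obtain ⟨z, hz⟩ := PresentedGroup.mk_surjective SS (e (PresentedGroup.mk _ y))
    have h2 := h1 z
    change ρ (e.symm (PresentedGroup.mk SS z)) = 1 at h2
    rw [hz, e.symm_apply_apply, hρ] at h2
    exact (QuotientGroup.eq_one_iff _).1 h2
  have hc := contractible_Cx w hw
  let _ := cw w
  refine ⟨V (Fin (n + 1)) (Fin (n + 1)), inferInstance, inferInstance, Cx id w, cw w,
    { eventually_isEmpty_cell := Filter.eventually_atTop.2 ⟨3, fun n hn => cell_empty n hn⟩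
      finite_cell := cell_finite }, fun n hn => cell_empty n hn, hc,
    fun x => pi2_subsingleton x, ?_⟩
  obtain ⟨K, hK⟩ := exists_subcomplex Fin.succ w
  refine ⟨K, ?_⟩
  rw [hK]
  refine ⟨isConnected_Cx _ _, base _ _, toPi _ _ υ, fun h => ?_, ?_⟩
  · let ψ : PresentedGroup SS →* Equiv.Perm (Fin 10) :=
      QuotientGroup.lift _ psi (Subgroup.normalClosure_le_normal (N := psi.ker) psi_SS)
    have := toPi_detect (Fin.succ_injective n) (w ∘ Fin.succ)
      ((ψ.comp e.toMonoidHom).comp (PresentedGroup.mk _)) (fun j => by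
        change ψ (e (PresentedGroup.mk _ _)) = 1
        rw [hw1, PresentedGroup.one_of_mem (Set.mem_range_self j), map_one, map_one]) υ h
    change ψ (e (PresentedGroup.mk _ υ)) = 1 at this
    rw [hυ, e.apply_symm_apply] at this
    exact psi_u this
  · refine isOfFinOrder_iff_pow_eq_one.2 ⟨6, by norm_num, ?_⟩
    have h1 : υ ^ 6 ∈ Subgroup.normalClosure (Set.range r) := by
      rw [← PresentedGroup.mk_eq_one_iff, map_pow, hυ, ← map_pow, ← map_pow,
        PresentedGroup.mk_eq_one_iff.2 u6_mem, map_one]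
    rw [← map_pow]
    refine Subgroup.normalClosure_le_normal (N := (toPi Fin.succ (w ∘ Fin.succ)).ker) ?_ h1
    rintro _ ⟨j, rfl⟩
    rw [← hw1]
    exact toPi_rel _ _ j

theorem ev_sw : ev th sw =
    FreeGroup.of 0 * th false * (FreeGroup.of 0)⁻¹ * th false * FreeGroup.of 0 * (th false ^ 2)⁻¹ *
      FreeGroup.of 0 * th false * (FreeGroup.of 0)⁻¹ * th false * (FreeGroup.of 0 ^ 2)⁻¹ *
      (th false ^ 2)⁻¹ := by
  rw [show (FreeGroup.of 0 : FreeGroup (Fin 2)) = th true from rfl]
  generalize th = θ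
  simp [ev, sw, dec, pow_two, mul_assoc]

end Pool.Agent.P.MP_488119_gt
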