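import Pool.Agent.P.MP_488119_gt.Alg

open Multiplicative

noncomputable section

namespace Pool.Agent.P.MP_488119_gt

open Classical in
/-- An involution of the space of bi-infinite sequences, acting on coordinates at most `i`. -/
def gam (i : ℤ) (x : ℤ → Fin 4) : ℤ → Fin 4 := fun j =>
  if j ≤ i ∧ ∀ k, j < k → k ≤ i → x k = 0 then Equiv.swap 2 3 (x j) else x j

theorem gam_zero (i : ℤ) (x : ℤ → Fin 4) (j : ℤ) : gam i x j = 0 ↔ x j = 0 := by
  unfold gam
  split_ifs
  · generalize x j = a; revert a; decide
  · rfl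

theorem gam_gam (i : ℤ) (x : ℤ → Fin 4) : gam i (gam i x) = x := by
  funext j
  rw [gam]
  simp only [gam_zero]
  split_ifs with h
  · rw [gam, if_pos h, Equiv.swap_apply_self]
  · rw [gam, if_neg h]

theorem gam_update (x : ℤ → Fin 4) (a : Fin 4) :
    gam (-1) (Function.update x 0 a) = Function.update (gam (-1) x) 0 a := by
  funext j
  by_cases hj : j = 0
  · subst hj
    rw [gam, if_neg (by omega)]; simp
  · rw [Function.update_of_ne hj, gam, gam, Function.update_of_ne hj]
    have : (j ≤ -1 ∧ ∀ k, j < k → k ≤ -1 → Function.update x 0 a k = 0) ↔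
        (j ≤ -1 ∧ ∀ k, j < k → k ≤ -1 → x k = 0) :=
      and_congr_right fun _ => forall_congr' fun k => forall_congr' fun _ =>
        forall_congr' fun hk => by rw [Function.update_of_ne (by omega)]
    simp only [this]

/-- Action of an element of the wreath product. -/
def act (p : Fin 4 → Fin 4 × Bool) (x : ℤ → Fin 4) : ℤ → Fin 4 :=
  Function.update (cond (p (x 0)).2 (gam (-1) x) x) 0 (p (x 0)).1

/-- Composition in the wreath product. -/
def cmp (p q : Fin 4 → Fin 4 × Bool) (a : Fin 4) : Fin 4 × Bool :=
  ((p (q a).1).1, xor (q a).2 (p (q a).1).2)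

theorem act_act (p q : Fin 4 → Fin 4 × Bool) (x : ℤ → Fin 4) :
    act p (act q x) = act (cmp p q) x := by
  have h0 : act q x 0 = (q (x 0)).1 := by simp [act]
  rw [act, h0, act, act, cmp]
  cases (q (x 0)).2 <;> cases (p (q (x 0)).1).2 <;> simp [gam_update, gam_gam]

/-- The identity. -/
def pid (a : Fin 4) : Fin 4 × Bool := (a, false)

theorem act_pid (x : ℤ → Fin 4) : act pid x = x := by simp [act, pid]

theorem act_flip (x : ℤ → Fin 4) : act (fun a => (a, true)) x = gam (-1) x := by
  rw [act]
  have : gam (-1) x 0 = x 0 := by rw [gam, if_neg (by omega)]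
  simp [← this]

/-- The letters. -/
def pl : Bool × Bool → Fin 4 → Fin 4 × Bool
  | (false, _) => ![(0, true), (1, false), (3, false), (2, false)]
  | (true, true) => ![(1, false), (2, false), (0, true), (3, true)]
  | (true, false) => ![(2, true), (0, false), (1, false), (3, true)]

theorem act_c (b : Bool) (x : ℤ → Fin 4) : act (pl (false, b)) x = gam 0 x := by
  funext j
  rw [act]
  by_cases hj : j = 0
  · subst hj
    rw [Function.update_self, gam, if_pos ⟨le_rfl, fun k h1 h2 => by omega⟩]
    generalize x 0 = a; revert a b; decide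
  · rw [Function.update_of_ne hj]
    by_cases h0 : x 0 = 0
    · rw [h0]
      change gam (-1) x j = _
      have : (j ≤ -1 ∧ ∀ k, j < k → k ≤ -1 → x k = 0) ↔
          (j ≤ 0 ∧ ∀ k, j < k → k ≤ 0 → x k = 0) := by
        constructor
        · rintro ⟨h1, h2⟩
          refine ⟨by omega, fun k h3 h4 => ?_⟩
          rcases eq_or_ne k 0 with rfl | h5
          · exact h0
          · exact h2 k h3 (by omega)
        · rintro ⟨h1, h2⟩
          exact ⟨by omega, fun k h3 h4 => h2 k h3 (by omega)⟩
      simp only [gam, this]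
    · have h1 : (pl (false, b) (x 0)).2 = false := by
        revert h0; generalize x 0 = a; revert a b; decide
      rw [h1, cond_false, gam, if_neg]
      rintro ⟨h2, h3⟩
      exact h0 (h3 0 (by omega) le_rfl)

/-- The permutations attached to the letters. -/
def pp (x : Bool) : Equiv.Perm (ℤ → Fin 4) where
  toFun := act (pl (x, true))
  invFun := act (pl (x, false))
  left_inv y := by
    rw [act_act, show cmp (pl (x, false)) (pl (x, true)) = pid by revert x; decide, act_pid]
  right_inv y := by
    rw [act_act, show cmp (pl (x, true)) (pl (x, false)) = pid by revert x; decide, act_pid]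

theorem pp_coe (x : Bool) : ⇑(pp x) = act (pl (x, true)) := rfl

theorem pp_symm_coe (x : Bool) : ⇑(pp x).symm = act (pl (x, false)) := rfl

theorem ev_pp (w : List (Bool × Bool)) (x : ℤ → Fin 4) :
    ev pp w x = act (w.foldr (fun l q => cmp (pl l) q) pid) x := by
  induction w with
  | nil => exact (act_pid x).symm
  | cons l w ih =>
    rw [ev_cons, Equiv.Perm.mul_apply, ih, List.foldr_cons, ← act_act]
    rcases l with ⟨a, _ | _⟩ <;> simp [ev] <;> rfl

theorem ev_pp_sw : ev pp sw = 1 := by
  ext1 x
  rw [ev_pp, show sw.foldr (fun l q => cmp (pl l) q) pid = pid by decide +kernel, act_pid]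
  rfl

theorem pp_cube (x : ℤ → Fin 4) : (pp true ^ 3) x = gam (-1) x := by
  rw [← act_flip, pow_three]
  change act _ (act _ (act _ x)) = _
  rw [act_act, act_act]
  congr 1
  decide

/-- The shift. -/
def shf : Equiv.Perm (ℤ → Fin 4) where
  toFun x j := x (j + 1)
  invFun x j := x (j - 1)
  left_inv x := by funext j; simp
  right_inv x := by funext j; simp

theorem shf_conj : shf⁻¹ * pp true ^ 3 * shf = pp false := by
  ext1 x
  rw [Equiv.Perm.mul_apply, Equiv.Perm.mul_apply, pp_cube]
  change _ = act _ x
  rw [act_c]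
  funext j
  change gam (-1) (fun j => x (j + 1)) (j - 1) = _
  have : (j - 1 ≤ -1 ∧ ∀ k, j - 1 < k → k ≤ -1 → x (k + 1) = 0) ↔
      (j ≤ 0 ∧ ∀ k, j < k → k ≤ 0 → x k = 0) := by
    constructor
    · rintro ⟨h1, h2⟩
      exact ⟨by omega, fun k h3 h4 => by simpa using h2 (k - 1) (by omega) (by omega)⟩
    · rintro ⟨h1, h2⟩
      exact ⟨by omega, fun k h3 h4 => h2 (k + 1) (by omega) (by omega)⟩
  simp only [gam, this, sub_add_cancel]

/-- The action on sequences. -/
def om : FreeGroup (Fin 2) →* Equiv.Perm (ℤ → Fin 4) := FreeGroup.lift ![pp true, shf]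

/-- The exponent of `t`. -/
def chi : FreeGroup (Fin 2) →* Multiplicative ℤ := FreeGroup.lift ![1, ofAdd 1]

theorem om_SS : ∀ s ∈ SS, om s = 1 := by
  rintro _ (rfl | rfl)
  · have : om (FreeGroup.of 0) = pp true := by simp [om]
    rw [map_pow, this, show 6 = 3 + 3 from rfl, pow_add]
    ext1 x
    rw [Equiv.Perm.mul_apply, pp_cube, pp_cube, gam_gam]; rfl
  · have h : (fun x => om (th x)) = pp := by
      funext x
      cases x
      · simp [om, th, shf_conj]
      · simp [om, th]
    rw [map_ev, h, ev_pp_sw]

theorem chi_SS : ∀ s ∈ SS, chi s = 1 := by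
  rintro _ (rfl | rfl)
  · simp [chi]
  · have h : (fun x => chi (th x)) = fun _ => 1 := by
      funext x
      cases x <;> simp [chi, th]
    rw [map_ev, h]
    simp [ev, sw, dec]

/-- Triangular maps which are shifts far to the right. -/
structure Tri (g : (ℤ → Fin 4) → ℤ → Fin 4) (d : ℤ) : Prop where
  tri : ∀ x y j, (∀ i, j + d ≤ i → x i = y i) → g x j = g y j
  far : ∃ b, ∀ x j, b < j → g x j = x (j + d)

theorem tri_act (p : Fin 4 → Fin 4 × Bool) : Tri (act p) 0 := by
  refine ⟨fun x y j h => ?_, 0, fun x j hj => ?_⟩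
  · rw [add_zero] at h
    have hg : gam (-1) x j = gam (-1) y j := by
      have : (j ≤ -1 ∧ ∀ k, j < k → k ≤ -1 → x k = 0) ↔
          (j ≤ -1 ∧ ∀ k, j < k → k ≤ -1 → y k = 0) :=
        and_congr_right fun _ => forall_congr' fun k => forall_congr' fun hk =>
          forall_congr' fun _ => by rw [h k hk.le]
      simp only [gam, this, h j le_rfl]
    rcases lt_trichotomy j 0 with hj | rfl | hj
    · rw [act, act, Function.update_of_ne hj.ne, Function.update_of_ne hj.ne, h 0 hj.le]
      cases (p (y 0)).2
      · exact h j le_rfl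
      · exact hg
    · simp [act, h 0 le_rfl]
    · have h1 : ∀ z : ℤ → Fin 4, act p z j = z j := by
        intro z
        rw [act, Function.update_of_ne hj.ne']
        cases (p (z 0)).2
        · rfl
        · rw [cond_true, gam, if_neg (by omega)]
      rw [h1, h1, h j le_rfl]
  · rw [act, Function.update_of_ne hj.ne', add_zero]
    cases (p (x 0)).2
    · rfl
    · rw [cond_true, gam, if_neg (by omega)]

theorem tri_om (g : FreeGroup (Fin 2)) : Tri (om g) (toAdd (chi g)) := by
  induction g using FreeGroup.induction_on with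
  | C1 =>
    rw [map_one, map_one]
    exact ⟨fun x y j h => h j (by simp), 0, fun x j _ => by simp⟩
  | of x =>
    fin_cases x
    · simpa [om, chi, pp_coe] using tri_act (pl (true, true))
    · simpa [om, chi] using
        (⟨fun x y j h => h _ le_rfl, 0, fun x j _ => rfl⟩ : Tri shf 1)
  | inv_of x _ =>
    fin_cases x
    · simpa [om, chi, pp_symm_coe] using tri_act (pl (true, false))
    · simpa [om, chi] using
        (⟨fun x y j h => h _ le_rfl, 0, fun x j _ => rfl⟩ : Tri shf.symm (-1))
  | mul g h hg hh =>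
    rw [map_mul, map_mul, toAdd_mul]
    refine ⟨fun x y j hxy => hg.tri _ _ j fun i hi => hh.tri _ _ i fun k hk => hxy k (by omega), ?_⟩
    obtain ⟨b, hb⟩ := hg.far
    obtain ⟨b', hb'⟩ := hh.far
    refine ⟨max b (b' - toAdd (chi g)), fun x j hj => ?_⟩
    rw [Equiv.Perm.mul_apply, hb _ _ (by omega), hb' _ _ (by omega), add_assoc]

theorem solvable_four : Group.IsSolvable (Equiv.Perm (Fin 4)) := by
  let K₁ : Subgroup (Equiv.Perm (Fin 4)) := alternatingGroup (Fin 4)
  let K₂ : Subgroup (Equiv.Perm (Fin 4)) :=
    { carrier := {g | Equiv.Perm.sign g = 1 ∧ g * g = 1}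
      mul_mem' := by
        intro a b
        simp only [Set.mem_ofPred_eq]
        revert a b
        decide +kernel
      one_mem' := by simp
      inv_mem' := by
        intro a
        simp only [Set.mem_ofPred_eq]
        revert a
        decide +kernel }
  have h1 : derivedSeries (Equiv.Perm (Fin 4)) 1 ≤ K₁ :=
    Subgroup.commutator_le.2 fun a _ b _ => by
      simp [K₁, commutatorElement_def, mul_comm, mul_left_comm]
  have h2 : ⁅K₁, K₁⁆ ≤ K₂ := Subgroup.commutator_le.2 fun a ha b hb => by
    change Equiv.Perm.sign _ = 1 ∧ _ * _ = 1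
    change Equiv.Perm.sign _ = 1 at ha hb
    rw [commutatorElement_def]
    revert a b
    decide +kernel
  have h3 : ⁅K₂, K₂⁆ ≤ ⊥ := Subgroup.commutator_le.2 fun a ha b hb => by
    change Equiv.Perm.sign _ = 1 ∧ _ * _ = 1 at ha hb
    rw [commutatorElement_def, Subgroup.mem_bot]
    revert a b
    decide +kernel
  refine ⟨3, le_bot_iff.1 ?_⟩
  have h4 : derivedSeries (Equiv.Perm (Fin 4)) 2 ≤ K₂ := (Subgroup.commutator_mono h1 h1).trans h2
  exact (Subgroup.commutator_mono h4 h4).trans h3

theorem perfect_hom {G Q : Type} [Group G] [Group Q] [Group.IsSolvable Q] [Group.IsPerfect G]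
    (θ : G →* Q) (g : G) : θ g = 1 := by
  have h1 : Group.IsPerfect θ.range := Group.IsPerfect.range θ
  have h2 : θ.range = ⊥ := by
    by_contra h
    exact (Group.IsSolvable.commutator_lt_of_ne_bot h).ne (Subgroup.isPerfect_iff.1 h1)
  exact Subgroup.mem_bot.1 (h2 ▸ (⟨g, rfl⟩ : θ g ∈ θ.range))

theorem no_perfect (P : Subgroup (PresentedGroup SS)) (hfg : P.FG) (hP : ⁅P, P⁆ = P) :
    PresentedGroup.mk SS (FreeGroup.of 0) ∉ P := by
  intro hu
  have : Group.IsPerfect P := Subgroup.isPerfect_iff.2 hP
  have := solvable_four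
  let ω : PresentedGroup SS →* Equiv.Perm (ℤ → Fin 4) :=
    QuotientGroup.lift _ om (Subgroup.normalClosure_le_normal (N := om.ker) om_SS)
  let χ : PresentedGroup SS →* Multiplicative ℤ :=
    QuotientGroup.lift _ chi (Subgroup.normalClosure_le_normal (N := chi.ker) chi_SS)
  have htri : ∀ g ∈ P, Tri (ω g) 0 := by
    intro g hg
    have h1 : χ g = 1 := perfect_hom (χ.comp P.subtype) ⟨g, hg⟩
    obtain ⟨y, rfl⟩ := PresentedGroup.mk_surjective SS g
    have h2 := tri_om y
    rwa [show chi y = 1 from h1] at h2
  obtain ⟨b, hb⟩ : ∃ b : ℤ, ∀ g ∈ P, ∀ x j, b < j → ω g x j = x j := by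
    obtain ⟨T, hT, hT'⟩ := (Subgroup.fg_iff _).1 hfg
    have : Finite T := hT'
    choose β hβ using fun g : T => (htri g (hT ▸ Subgroup.subset_closure g.2)).far
    obtain ⟨b, hb⟩ := (Set.finite_range β).bddAbove
    refine ⟨b, fun g hg => ?_⟩
    rw [← hT] at hg
    induction hg using Subgroup.closure_induction with
    | mem g hg =>
      intro x j hj
      simpa using hβ ⟨g, hg⟩ x j ((hb (Set.mem_range_self _)).trans_lt hj)
    | one => intro x j _; rw [map_one]; rfl
    | mul g h _ _ hg hh =>
      intro x j hj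
      rw [map_mul, Equiv.Perm.mul_apply, hg _ _ hj, hh _ _ hj]
    | inv g _ hg =>
      intro x j hj
      rw [← hg (ω g⁻¹ x) _ hj, ← Equiv.Perm.mul_apply, ← map_mul, mul_inv_cancel, map_one]; rfl
  have key : ∀ n : ℕ, ∀ g ∈ P, ∀ x j, b - n < j → ω g x j = x j := by
    intro n
    induction n with
    | zero => simpa using hb
    | succ n ih =>
      intro g hg x j hj
      rcases lt_or_eq_of_le (show b - n ≤ j by omega) with h | h
      · exact ih g hg x j h
      rw [h] at ih
      let θ : P →* Function.End (Fin 4) :=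
        { toFun := fun g a => ω g (Function.update x j a) j
          map_one' := by
            funext a
            simp
            rfl
          map_mul' := by
            intro g g'
            funext a
            change ω (g * g' : P) _ j = ω g (Function.update x j (ω g' (Function.update x j a) j)) j
            rw [Subgroup.coe_mul, map_mul, Equiv.Perm.mul_apply]
            refine (htri g g.2).tri _ _ j fun i hi => ?_
            rcases lt_or_eq_of_le (show j ≤ i by omega) with h1 | rfl
            · rw [ih g' g'.2 _ i h1, Function.update_of_ne h1.ne', Function.update_of_ne h1.ne']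
            · simp }
      have h1 := DFunLike.congr_fun (perfect_hom θ.toHomPerm ⟨g, hg⟩) (x j)
      simpa [θ] using h1
  have h1 := key (b + 1).toNat _ hu (fun _ => 0) 0 (by omega)
  change om (FreeGroup.of 0) _ 0 = _ at h1
  rw [show om (FreeGroup.of 0) = pp true by simp [om]] at h1
  rw [pp_coe, act, Function.update_self] at h1
  revert h1
  decide

end Pool.Agent.P.MP_488119_gt
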