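import Pool.Agent.P.MP_488119_gt.Tower
import Pool.Agent.P.MP_488119_gt.NoPerf
import Pool.Agent.P.MP_488119_gt.Loop

open Multiplicative

namespace Pool.Agent.P.MP_488119_gt

theorem u_fin : IsOfFinOrder (PresentedGroup.mk SS (FreeGroup.of 0)) :=
  isOfFinOrder_iff_pow_eq_one.2 ⟨6, by norm_num, by
    rw [← map_pow]; exact PresentedGroup.mk_eq_one_iff.2 u6_mem⟩

/-- No presentation of the group has vanishing second cohomology. -/
theorem not_sol {X J : Type} (r : J → FreeGroup X)
    (e : PresentedGroup (Set.range r) ≃* PresentedGroup SS) :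
    ¬ ∀ b : J → ℤ, ∃ ψ : FreeGroup X →* Multiplicative ℤ, ∀ j, toAdd (ψ (r j)) = b j := by
  intro h
  obtain ⟨υ, hυ⟩ := PresentedGroup.mk_surjective (Set.range r)
    (e.symm (PresentedGroup.mk SS (FreeGroup.of 0)))
  have h1 : (e.toMonoidHom.comp (PresentedGroup.mk _)) υ = PresentedGroup.mk SS (FreeGroup.of 0) := by
    change e (PresentedGroup.mk _ υ) = _
    rw [hυ, e.apply_symm_apply]
  obtain ⟨P, hP, hu, hP'⟩ := tower r (e.toMonoidHom.comp (PresentedGroup.mk _)) (by
    ext x
    rw [MonoidHom.mem_ker, ← PresentedGroup.mk_eq_one_iff]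
    exact e.map_eq_one_iff) h υ (h1 ▸ u_fin)
  exact no_perfect P hP hP' (h1 ▸ hu)

theorem no_def_one (n : ℕ) (r : Fin n → FreeGroup (Fin (n + 1)))
    (e : PresentedGroup (Set.range r) ≃* PresentedGroup SS) : False := by
  obtain ⟨τ, hτ⟩ := PresentedGroup.mk_surjective (Set.range r)
    (e.symm (PresentedGroup.mk SS (FreeGroup.of 1)))
  let w : Fin (n + 1) → FreeGroup (Fin (n + 1)) := Fin.cons τ r
  have hw : Subgroup.normalClosure (Set.range w) = ⊤ := by
    set N := Subgroup.normalClosure (Set.range w)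
    have hN : Subgroup.normalClosure (Set.range r) ≤ (QuotientGroup.mk' N).ker := by
      rw [QuotientGroup.ker_mk']
      apply Subgroup.normalClosure_mono
      rintro _ ⟨j, rfl⟩
      exact ⟨j.succ, rfl⟩
    let ρ : PresentedGroup (Set.range r) →* FreeGroup (Fin (n + 1)) ⧸ N :=
      QuotientGroup.lift _ (QuotientGroup.mk' N) hN
    have hρ : ∀ y, ρ (PresentedGroup.mk _ y) = QuotientGroup.mk' N y := fun y => rfl
    have h1 := weight_one ((ρ.comp e.symm.toMonoidHom).comp (PresentedGroup.mk SS))
      (by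
        change ρ (e.symm (PresentedGroup.mk SS (FreeGroup.of 1))) = 1
        rw [← hτ, hρ]
        exact (QuotientGroup.eq_one_iff _).2 (Subgroup.subset_normalClosure ⟨0, rfl⟩))
      (by
        change ρ (e.symm (PresentedGroup.mk SS (ev th sw))) = 1
        rw [PresentedGroup.mk_eq_one_iff.2 sw_mem, map_one, map_one])
    rw [eq_top_iff]
    intro y _
    obtain ⟨z, hz⟩ := PresentedGroup.mk_surjective SS (e (PresentedGroup.mk _ y))
    have h2 := h1 z
    change ρ (e.symm (PresentedGroup.mk SS z)) = 1 at h2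
    rw [hz, e.symm_apply_apply, hρ] at h2
    exact (QuotientGroup.eq_one_iff _).1 h2
  refine not_sol r e fun b => ?_
  obtain ⟨a, ha⟩ := solve_comm (A := Multiplicative ℤ) w hw
    (Fin.cons 1 fun j => ofAdd (b j))
  exact ⟨FreeGroup.lift a, fun j => congrArg toAdd (ha j.succ)⟩

theorem def_le_zero (m n : ℕ) (r : Fin n → FreeGroup (Fin m))
    (e : PresentedGroup (Set.range r) ≃* PresentedGroup SS) : m ≤ n := by
  by_contra h
  obtain ⟨k, rfl⟩ : ∃ k, m = n + k + 1 := ⟨m - n - 1, by omega⟩
  let r' : Fin (n + k) → FreeGroup (Fin (n + k + 1)) := Fin.append r fun _ => 1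
  have h1 : Subgroup.normalClosure (Set.range r') = Subgroup.normalClosure (Set.range r) := by
    apply le_antisymm
    · apply Subgroup.normalClosure_le_normal
      rintro _ ⟨j, rfl⟩
      induction j using Fin.addCases with
      | left j => exact Subgroup.subset_normalClosure ⟨j, by simp [r']⟩
      | right j => simp [r']
    · apply Subgroup.normalClosure_mono
      rintro _ ⟨j, rfl⟩
      exact ⟨Fin.castAdd k j, by simp [r']⟩
  exact no_def_one (n + k) r' ((QuotientGroup.quotientMulEquivOfEq h1).trans e)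

end Pool.Agent.P.MP_488119_gt
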