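import Pool.Agent.P.MP_488119_gt.Main

open Topology

namespace Pool.Agent.Results.MP_488119_gt.Dichotomy

/-- Let `G = ⟨u, t ∣ u ^ 6, s⟩` be the group below and `P` the kernel of `F(u, t) → G`.
Either some finite contractible 2-complex has a connected subcomplex with torsion in its
fundamental group, or the relation module `P / [P, P]` is generated by the class of `s` alone
while `G` has no presentation with `n + 1` generators and `n` relators. -/
theorem result (u t c s : FreeGroup (Fin 2)) (hu : u = FreeGroup.of 0) (ht : t = FreeGroup.of 1)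
    (hc : c = t⁻¹ * u ^ 3 * t)
    (hs : s = u * c * u⁻¹ * c * u * (c ^ 2)⁻¹ * u * c * u⁻¹ * c * (u ^ 2)⁻¹ * (c ^ 2)⁻¹) :
    (∃ (X : Type) (_ : TopologicalSpace X) (_ : T2Space X) (L : Set X) (_ : CWComplex L),
      RelCWComplex.Finite L ∧ (∀ n, 2 < n → IsEmpty (RelCWComplex.cell L n)) ∧
      ContractibleSpace L ∧ (∀ x : L, Subsingleton (π_ 2 L x)) ∧
      ∃ K : RelCWComplex.Subcomplex L, IsConnected (K : Set X) ∧
        ∃ (x : (K : Set X)) (g : FundamentalGroup (K : Set X) x), g ≠ 1 ∧ IsOfFinOrder g) ∨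
    (Subgroup.normalClosure {u ^ 6, s} = Subgroup.normalClosure {s} ⊔
        ⁅Subgroup.normalClosure {u ^ 6, s}, Subgroup.normalClosure {u ^ 6, s}⁆ ∧
      ∀ (n : ℕ) (r : Fin n → FreeGroup (Fin (n + 1))),
        IsEmpty (PresentedGroup (Set.range r) ≃* PresentedGroup {u ^ 6, s})) := by
  have h : s = Pool.Agent.P.MP_488119_gt.ev Pool.Agent.P.MP_488119_gt.th
      Pool.Agent.P.MP_488119_gt.sw := by
    rw [Pool.Agent.P.MP_488119_gt.ev_sw, hs, hc, hu, ht]; rfl
  rw [h, hu]
  by_cases H : ∃ (n : ℕ) (r : Fin n → FreeGroup (Fin (n + 1))),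
      Nonempty (PresentedGroup (Set.range r) ≃* PresentedGroup Pool.Agent.P.MP_488119_gt.SS)
  · obtain ⟨n, r, ⟨e⟩⟩ := H
    exact Or.inl (Pool.Agent.P.MP_488119_gt.counterexample_of_presentation n r e)
  · refine Or.inr ⟨Pool.Agent.P.MP_488119_gt.cyclic_module, fun n r => ?_⟩
    exact not_nonempty_iff.1 fun h => H ⟨n, r, h⟩

end Pool.Agent.Results.MP_488119_gt.Dichotomy
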