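import Mathlib

open Multiplicative

namespace Pool.Agent.P.MP_488119_gt

/-- The unrestricted wreath product of two infinite cyclic groups. -/
@[ext] structure Wr where
  f : ℤ → ℤ
  a : ℤ

instance : Mul Wr := ⟨fun x y => ⟨fun n => x.f n + y.f (n + x.a), x.a + y.a⟩⟩
instance : One Wr := ⟨⟨fun _ => 0, 0⟩⟩
instance : Inv Wr := ⟨fun x => ⟨fun n => - x.f (n - x.a), - x.a⟩⟩

@[simp] theorem Wr.mul_f (x y : Wr) (n : ℤ) : (x * y).f n = x.f n + y.f (n + x.a) := rfl
@[simp] theorem Wr.mul_a (x y : Wr) : (x * y).a = x.a + y.a := rfl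
@[simp] theorem Wr.one_f (n : ℤ) : (1 : Wr).f n = 0 := rfl
@[simp] theorem Wr.one_a : (1 : Wr).a = 0 := rfl
@[simp] theorem Wr.inv_f (x : Wr) (n : ℤ) : (x⁻¹).f n = - x.f (n - x.a) := rfl
@[simp] theorem Wr.inv_a (x : Wr) : (x⁻¹).a = - x.a := rfl

instance : Group Wr := Group.ofLeftAxioms
  (fun x y z => by ext <;> simp [add_assoc])
  (fun x => by ext <;> simp)
  (fun x => by ext <;> simp [sub_eq_add_neg])

/-- The difference operator. -/
def Wr.dl : Wr →* Wr where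
  toFun x := ⟨fun n => x.f (n + 1) - x.f n, x.a⟩
  map_one' := by ext <;> simp
  map_mul' x y := by
    ext n
    · simp only [Wr.mul_f]
      rw [add_right_comm n 1 x.a]; ring
    · rfl

theorem exists_sum (g : ℤ → ℤ) : ∃ f : ℤ → ℤ, ∀ n, f (n + 1) - f n = g n := by
  refine ⟨fun n => ∑ i ∈ Finset.range n.toNat, g i - ∑ i ∈ Finset.range (-n).toNat, g (-1 - i),
    fun n => ?_⟩
  rcases le_or_gt 0 n with h | h
  · obtain ⟨m, rfl⟩ := Int.eq_ofNat_of_zero_le h
    have h1 : ((m : ℤ) + 1).toNat = m + 1 := by omega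
    have h2 : (-((m : ℤ) + 1)).toNat = 0 := by omega
    have h3 : (-(m : ℤ)).toNat = 0 := by omega
    simp only [h1, h2, h3, Int.toNat_natCast, Finset.sum_range_succ]
    simp
  · obtain ⟨m, rfl⟩ : ∃ m : ℕ, n = -1 - m := ⟨(-1 - n).toNat, by omega⟩
    have h1 : (-1 - (m : ℤ) + 1).toNat = 0 := by omega
    have h2 : (-(-1 - (m : ℤ) + 1)).toNat = m := by omega
    have h3 : (-(-1 - (m : ℤ))).toNat = m + 1 := by omega
    have h4 : (-1 - (m : ℤ)).toNat = 0 := by omega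
    simp only [h1, h2, h3, h4, Finset.sum_range_succ]
    simp

theorem Wr.dl_surj : Function.Surjective Wr.dl := by
  intro y
  obtain ⟨f, hf⟩ := exists_sum y.f
  exact ⟨⟨f, y.a⟩, Wr.ext (funext hf) rfl⟩

theorem lift_surj {H A B : Type} [Group H] [IsFreeGroup H] [Group A] [Group B] (π : A →* B)
    (hπ : Function.Surjective π) (f : H →* B) : ∃ g : H →* A, ∀ h, π (g h) = f h := by
  choose s hs using hπ
  refine ⟨IsFreeGroup.lift fun x => s (f (IsFreeGroup.of x)), fun h => ?_⟩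
  have : π.comp (IsFreeGroup.lift fun x => s (f (IsFreeGroup.of x))) = f :=
    IsFreeGroup.ext_hom fun x => by simp [hs]
  exact DFunLike.congr_fun this h

theorem window {H κ : Type} [Group H] [IsFreeGroup H] (ρ : κ → H) (E : κ → κ → Prop) (ℓ : κ → ℤ)
    (φ : H →* Multiplicative ℤ) (hφ : ∀ k, φ (ρ k) = 1)
    (hE : ∀ k l, E k l → ∃ h : H, ρ k = h * ρ l * h⁻¹ ∧ toAdd (φ h) = ℓ k - ℓ l)
    (inv : ∀ a : κ → ℤ, (∀ k l, E k l → a k = a l) →
      ∃ ψ : H →* Multiplicative ℤ, ∀ k, toAdd (ψ (ρ k)) = a k)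
    (c : ℤ) (D : ℕ) (f : κ → ℤ → ℤ) (hf : ∀ k l, E k l → f k = f l) :
    ∃ d : H →* Wr, (∀ h, (d h).a = toAdd (φ h)) ∧
      ∀ k (n : ℤ), c ≤ n → n < c + D → (d (ρ k)).f (n - ℓ k) = f k n := by
  induction D generalizing f with
  | zero =>
    refine ⟨⟨⟨fun h => ⟨fun _ => 0, toAdd (φ h)⟩, ?_⟩, ?_⟩, fun h => rfl, fun k n h1 h2 => ?_⟩
    · ext <;> simp
    · intro x y; ext <;> simp
    · simp at h2; omega
  | succ D ih =>
    obtain ⟨d', h1, h2⟩ := ih (fun k n => f k (n + 1) - f k n) (fun k l h => by rw [hf k l h])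
    obtain ⟨d, hd⟩ := lift_surj Wr.dl Wr.dl_surj d'
    have ha : ∀ h, (d h).a = toAdd (φ h) := fun h => by rw [← h1, ← hd]; rfl
    obtain ⟨ψ, hψ⟩ := inv (fun k => (d (ρ k)).f (c - ℓ k) - f k c) (fun k l h => by
      obtain ⟨g, hg, hg'⟩ := hE k l h
      simp only [hf k l h]
      congr 1
      rw [hg, map_mul, map_mul, map_inv]
      simp only [Wr.mul_f, Wr.mul_a, Wr.inv_f, ha, hφ, hg', toAdd_one]
      ring_nf)
    refine ⟨⟨⟨fun h => ⟨fun n => (d h).f n - toAdd (ψ h), (d h).a⟩, ?_⟩, ?_⟩, ha,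
      fun k n hn1 hn2 => ?_⟩
    · ext <;> simp
    · intro x y
      ext n
      · simp only [map_mul, Wr.mul_f, toAdd_mul]; ring
      · simp
    · change (d (ρ k)).f (n - ℓ k) - toAdd (ψ (ρ k)) = f k n
      rw [hψ]
      obtain ⟨m, rfl⟩ : ∃ m : ℕ, n = c + m := ⟨(n - c).toNat, by omega⟩
      clear hn1
      induction m with
      | zero => simp
      | succ m ihm =>
        have h3 := h2 k (c + m) (by omega) (by push_cast at hn2; omega)
        rw [← hd] at h3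
        have h4 := ihm (by push_cast at hn2 ⊢; omega)
        change (d (ρ k)).f (c + m - ℓ k + 1) - (d (ρ k)).f (c + m - ℓ k) = _ at h3
        push_cast
        rw [show c + (m + 1) - ℓ k = c + m - ℓ k + 1 by ring, ← add_assoc]
        linarith

section

variable {F κ J : Type} [Group F] (w : κ → F) (lab : κ → J) (r : J → F)

/-- The based boundary loop of a face. -/
def rho (k : κ) : F := w k * r (lab k) * (w k)⁻¹

/-- Vanishing of the second cohomology of the complex attached to a subgroup. -/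
structure TInv (H : Subgroup F) : Prop where
  mem : ∀ k, rho w lab r k ∈ H
  sol : ∀ a : κ → ℤ, (∀ k l, lab k = lab l → w k * (w l)⁻¹ ∈ H → a k = a l) →
    ∃ ψ : H →* Multiplicative ℤ, ∀ k, toAdd (ψ ⟨rho w lab r k, mem k⟩) = a k

variable {w lab r}

theorem TInv.mono {H H' : Subgroup F} (h : TInv w lab r H) (hle : H' ≤ H)
    (h1 : ∀ k, rho w lab r k ∈ H') (h2 : ∀ k l, w k * (w l)⁻¹ ∈ H → w k * (w l)⁻¹ ∈ H') :
    TInv w lab r H' := by
  refine ⟨h1, fun a ha => ?_⟩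
  obtain ⟨ψ, hψ⟩ := h.sol a fun k l h3 h4 => ha k l h3 (h2 k l h4)
  exact ⟨ψ.comp (Subgroup.inclusion hle), hψ⟩

theorem TInv.cover [IsFreeGroup F] [Finite κ] {H : Subgroup F} (h : TInv w lab r H)
    (φ : H →* Multiplicative ℤ) (hφ : ∀ k, φ ⟨rho w lab r k, h.mem k⟩ = 1) :
    TInv w lab r (φ.ker.map H.subtype) := by
  classical
  have hm : ∀ k, rho w lab r k ∈ φ.ker.map H.subtype := fun k => ⟨⟨_, h.mem k⟩, hφ k, rfl⟩
  refine ⟨hm, fun a ha => ?_⟩
  let rep : F → F := fun g => Quotient.out (Quotient.mk (QuotientGroup.rightRel H) g)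
  have hrep : ∀ g, g * (rep g)⁻¹ ∈ H := fun g =>
    QuotientGroup.rightRel_apply.1 (Quotient.exact (Quotient.out_eq
      (Quotient.mk (QuotientGroup.rightRel H) g)))
  have hrep2 : ∀ g g', g * g'⁻¹ ∈ H → rep g = rep g' := fun g g' hg => by
    simp only [rep]
    rw [Quotient.sound (s := QuotientGroup.rightRel H) (a := g') (b := g)
      (QuotientGroup.rightRel_apply.2 hg)]
  let ℓ : κ → ℤ := fun k => toAdd (φ ⟨_, hrep (w k)⟩)
  have hℓ : ∀ k l (hkl : w k * (w l)⁻¹ ∈ H), toAdd (φ ⟨_, hkl⟩) = ℓ k - ℓ l := by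
    intro k l hkl
    simp only [ℓ]
    rw [← toAdd_div, ← map_div]
    congr 2
    apply Subtype.ext
    simp [hrep2 _ _ hkl, div_eq_mul_inv]
  let E : κ → κ → Prop := fun k l => lab k = lab l ∧ w k * (w l)⁻¹ ∈ H
  have hE : ∀ k l, E k l → ∀ j, E k j ↔ E l j := by
    intro k l hkl j
    constructor
    · intro hj
      exact ⟨hkl.1.symm.trans hj.1, by simpa [mul_assoc] using mul_mem (inv_mem hkl.2) hj.2⟩
    · intro hj
      exact ⟨hkl.1.trans hj.1, by simpa [mul_assoc] using mul_mem hkl.2 hj.2⟩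
  let g : (κ → Prop) → ℤ := fun S => if hS : ∃ l, S l then a hS.choose else 0
  obtain ⟨c, hc⟩ := (Set.finite_range ℓ).bddBelow
  obtain ⟨c', hc'⟩ := (Set.finite_range ℓ).bddAbove
  obtain ⟨d, hd1, hd2⟩ := window (fun k => (⟨_, h.mem k⟩ : H)) E ℓ φ hφ
    (fun k l hkl => ⟨⟨_, hkl.2⟩, Subtype.ext (by simp [rho, hkl.1, mul_assoc]), hℓ k l hkl.2⟩)
    (fun b hb => h.sol b fun k l h1 h2 => hb k l ⟨h1, h2⟩) c (c' + 1 - c).toNat
    (fun k n => g fun l => E k l ∧ ℓ l = n) (fun k l hkl => by simp only [hE k l hkl])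
  have hle : φ.ker.map H.subtype ≤ H := Subgroup.map_subtype_le _
  have hz : ∀ x : φ.ker.map H.subtype, (d (Subgroup.inclusion hle x)).a = 0 := by
    rintro ⟨_, x, hx, rfl⟩
    rw [hd1]
    exact congrArg toAdd hx
  refine ⟨⟨⟨fun x => ofAdd ((d (Subgroup.inclusion hle x)).f 0), by simp⟩, fun x y => ?_⟩,
    fun k => ?_⟩
  · simp [hz]
  · have h1 := hc (Set.mem_range_self k)
    have h2 := hc' (Set.mem_range_self k)
    have h3 := hd2 k (ℓ k) h1 (by omega)
    rw [sub_self] at h3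
    refine h3.trans ?_
    have h4 : ∃ l, E k l ∧ ℓ l = ℓ k := ⟨k, ⟨rfl, by simp⟩, rfl⟩
    simp only [g]
    rw [dif_pos h4]
    obtain ⟨h5, h6⟩ := h4.choose_spec
    refine (ha _ _ h5.1 ⟨⟨_, h5.2⟩, ?_, rfl⟩).symm
    have h7 := hℓ _ _ h5.2
    rw [h6, sub_self] at h7
    exact h7

theorem TInv.top [IsFreeGroup F] [Finite κ] {u : F} {N : ℕ} (hN : N ≠ 0)
    (hu : u ^ N ∈ Subgroup.closure (Set.range (rho w lab r)))
    (H₀ : Subgroup F) (h₀ : TInv w lab r H₀) (hu₀ : u ∈ H₀) :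
    ∃ (H : Subgroup F) (h : TInv w lab r H), H.FG ∧ u ∈ H ∧
      ∀ φ : H →* Multiplicative ℤ, (∀ k, φ ⟨rho w lab r k, h.mem k⟩ = 1) → φ = 1 := by
  let S : Set F := {u} ∪ Set.range (rho w lab r) ∪ Set.range fun p : κ × κ => w p.1 * (w p.2)⁻¹
  have hS : S.Finite := ((Set.finite_singleton u).union (Set.finite_range _)).union
    (Set.finite_range _)
  obtain ⟨H, ⟨h, huH⟩, hmin⟩ := (measure fun H : Subgroup F => (S ∩ H).ncard).wf.has_min
    {H | TInv w lab r H ∧ u ∈ H} ⟨H₀, h₀, hu₀⟩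
  have hle : Subgroup.closure (S ∩ H) ≤ H := (Subgroup.closure_le _).2 Set.inter_subset_right
  have h' : TInv w lab r (Subgroup.closure (S ∩ H)) := h.mono hle
    (fun k => Subgroup.subset_closure ⟨Or.inl (Or.inr ⟨k, rfl⟩), h.mem k⟩)
    (fun k l hkl => Subgroup.subset_closure ⟨Or.inr ⟨(k, l), rfl⟩, hkl⟩)
  have hu' : u ∈ Subgroup.closure (S ∩ H) := Subgroup.subset_closure ⟨Or.inl (Or.inl rfl), huH⟩
  refine ⟨_, h', (Subgroup.fg_iff _).2 ⟨_, rfl, hS.inter_of_left _⟩, hu', fun φ hφ => ?_⟩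
  have hc := h'.cover φ hφ
  set K := φ.ker.map (Subgroup.closure (S ∩ H)).subtype with hK
  have huK : u ∈ K := by
    obtain ⟨x, hx, hx'⟩ := (Subgroup.closure_le K).2 (by rintro _ ⟨k, rfl⟩; exact hc.mem k) hu
    refine ⟨⟨u, hu'⟩, ?_, rfl⟩
    have h1 : x = ⟨u, hu'⟩ ^ N := Subtype.ext hx'
    rw [SetLike.mem_coe, MonoidHom.mem_ker, h1, map_pow] at hx
    have h2 := congrArg toAdd hx
    rw [toAdd_pow, toAdd_one, nsmul_eq_mul, mul_eq_zero] at h2
    exact h2.resolve_left (Nat.cast_ne_zero.2 hN)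
  have h1 : ¬ (S ∩ K).ncard < (S ∩ H).ncard := hmin K ⟨hc, huK⟩
  have h2 : S ∩ K = S ∩ H := Set.eq_of_subset_of_ncard_le
    (Set.inter_subset_inter_right _ ((Subgroup.map_subtype_le _).trans hle)) (not_lt.1 h1)
    (hS.inter_of_left _)
  have h3 : Subgroup.closure (S ∩ H) ≤ K := (Subgroup.closure_le _).2 (h2 ▸ Set.inter_subset_right)
  ext x
  obtain ⟨y, hy, hy'⟩ := h3 x.2
  obtain rfl : y = x := Subtype.ext hy'
  exact congrArg toAdd hy

theorem TInv.zmod [IsFreeGroup F] {H : Subgroup F} (h : TInv w lab r H)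
    (hz : ∀ φ : H →* Multiplicative ℤ, (∀ k, φ ⟨rho w lab r k, h.mem k⟩ = 1) → φ = 1)
    (n : ℕ) (θ : H →* Multiplicative (ZMod n)) (hθ : ∀ k, θ ⟨rho w lab r k, h.mem k⟩ = 1) :
    θ = 1 := by
  obtain ⟨θ', hθ'⟩ := lift_surj (AddMonoidHom.toMultiplicative (Int.castAddHom (ZMod n)))
    (ZMod.intCast_surjective (n := n)) θ
  have h1 : ∀ k, ∃ a : ℤ, toAdd (θ' ⟨rho w lab r k, h.mem k⟩) = n * a := fun k =>
    (ZMod.intCast_zmod_eq_zero_iff_dvd _ n).1 (congrArg toAdd ((hθ' _).trans (hθ k)))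
  obtain ⟨ψ, hψ⟩ := h.sol (fun k => toAdd (θ' ⟨rho w lab r k, h.mem k⟩) / n) (fun k l h2 h3 => by
    have : (⟨rho w lab r k, h.mem k⟩ : H) = ⟨_, h3⟩ * ⟨rho w lab r l, h.mem l⟩ * ⟨_, h3⟩⁻¹ :=
      Subtype.ext (by simp [rho, h2, mul_assoc])
    simp only [this, map_mul, map_inv, mul_inv_cancel_comm])
  have h2 := hz (θ' / ψ ^ n) (fun k => by
    obtain ⟨a, ha⟩ := h1 k
    apply toAdd.injective
    rw [MonoidHom.div_apply, MonoidHom.pow_apply, toAdd_div, toAdd_pow, hψ, ha, nsmul_eq_mul]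
    rcases eq_or_ne n 0 with rfl | hn
    · simp
    · rw [Int.mul_ediv_cancel_left _ (Nat.cast_ne_zero.2 hn)]; simp)
  ext x
  rw [← hθ', div_eq_one.1 h2]
  simp

end

theorem mem_normalClosure_expr {F J : Type} [Group F] (r : J → F) {x : F}
    (hx : x ∈ Subgroup.normalClosure (Set.range r)) :
    ∃ (κ : Type) (_ : Finite κ) (w : κ → F) (lab : κ → J),
      x ∈ Subgroup.closure (Set.range (rho w lab r)) := by
  obtain ⟨T, hT, hx⟩ : ∃ T : Finset F, (T : Set F) ⊆ Group.conjugatesOfSet (Set.range r) ∧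
      x ∈ Subgroup.closure (T : Set F) := by
    classical
    induction hx using Subgroup.closure_induction with
    | mem y hy => exact ⟨{y}, by simpa using hy, Subgroup.subset_closure (by simp)⟩
    | one => exact ⟨∅, by simp, one_mem _⟩
    | mul y z _ _ hy hz =>
      obtain ⟨T, h1, h2⟩ := hy
      obtain ⟨T', h1', h2'⟩ := hz
      exact ⟨T ∪ T', by simp [h1, h1'], mul_mem (Subgroup.closure_mono (by simp) h2)
        (Subgroup.closure_mono (by simp) h2')⟩
    | inv y _ hy =>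
      obtain ⟨T, h1, h2⟩ := hy
      exact ⟨T, h1, inv_mem h2⟩
  have h1 : ∀ y : T, ∃ p : F × J, p.1 * r p.2 * p.1⁻¹ = y := by
    intro y
    obtain ⟨_, ⟨j, rfl⟩, hj⟩ := Group.mem_conjugatesOfSet_iff.1 (hT y.2)
    obtain ⟨g, hg⟩ := isConj_iff.1 hj
    exact ⟨(g, j), hg⟩
  choose p hp using h1
  refine ⟨T, inferInstance, fun y => (p y).1, fun y => (p y).2, Subgroup.closure_mono ?_ hx⟩
  intro y hy
  exact ⟨⟨y, hy⟩, hp ⟨y, hy⟩⟩

/-- The tower lemma: if the second cohomology of the presentation complex vanishes, then every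
element of finite order lies in a finitely generated perfect subgroup. -/
theorem tower {F J G : Type} [Group F] [IsFreeGroup F] [Group G] (r : J → F) (π : F →* G)
    (hπ : π.ker = Subgroup.normalClosure (Set.range r))
    (hr : ∀ b : J → ℤ, ∃ ψ : F →* Multiplicative ℤ, ∀ j, toAdd (ψ (r j)) = b j)
    (u : F) (hu : IsOfFinOrder (π u)) :
    ∃ P : Subgroup G, P.FG ∧ π u ∈ P ∧ ⁅P, P⁆ = P := by
  classical
  obtain ⟨N, hN, hu⟩ := isOfFinOrder_iff_pow_eq_one.1 hu
  rw [← map_pow, ← MonoidHom.mem_ker, hπ] at hu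
  obtain ⟨κ, _, w, lab, hu⟩ := mem_normalClosure_expr r hu
  have h₀ : TInv w lab r ⊤ := ⟨fun _ => trivial, fun a ha => by
    obtain ⟨ψ, hψ⟩ := hr fun j => if hj : ∃ k, lab k = j then a hj.choose else 0
    refine ⟨ψ.comp (Subgroup.subtype ⊤), fun k => ?_⟩
    have h1 : ∃ l, lab l = lab k := ⟨k, rfl⟩
    change toAdd (ψ (w k * r (lab k) * (w k)⁻¹)) = _
    rw [map_mul ψ, map_mul ψ, map_inv ψ, mul_inv_cancel_comm, hψ, dif_pos h1]
    exact ha _ _ h1.choose_spec trivial⟩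
  obtain ⟨H, h, hfg, huH, hz⟩ := TInv.top hN.ne' hu ⊤ h₀ trivial
  have hfg' : (H.map π).FG := by
    obtain ⟨T, hT, hT'⟩ := (Subgroup.fg_iff _).1 hfg
    exact (Subgroup.fg_iff _).2 ⟨π '' T, by rw [← hT, MonoidHom.map_closure], hT'.image _⟩
  refine ⟨H.map π, hfg', ⟨u, huH, rfl⟩, ?_⟩
  have : Group.FG (H.map π) := (Group.fg_iff_subgroup_fg _).2 hfg'
  have : Group.FG (Abelianization (H.map π)) :=
    Group.fg_of_surjective (f := Abelianization.of) QuotientGroup.mk_surjective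
  obtain ⟨ι, ι', _, _, p, -, e, ⟨E⟩⟩ :=
    CommGroup.equiv_free_prod_prod_multiplicative_zmod (Abelianization (H.map π))
  let θ := (E.toMonoidHom.comp Abelianization.of).comp (π.subgroupMap H)
  have hθ : ∀ k, θ ⟨rho w lab r k, h.mem k⟩ = 1 := by
    intro k
    have : π.subgroupMap H ⟨rho w lab r k, h.mem k⟩ = 1 := by
      apply Subtype.ext
      change rho w lab r k ∈ π.ker
      rw [hπ]
      exact Subgroup.Normal.conj_mem inferInstance _ 
        (Subgroup.subset_normalClosure (Set.mem_range_self (lab k))) _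
    simp only [θ, MonoidHom.comp_apply, this, map_one]
  have hθ1 : ∀ x, θ x = 1 := by
    intro x
    refine Prod.ext (funext fun j => ?_) (funext fun i => ?_)
    · exact DFunLike.congr_fun (hz (((Pi.evalMonoidHom _ j).comp (MonoidHom.fst _ _)).comp θ)
        fun k => by rw [MonoidHom.comp_apply, hθ, map_one]) x
    · exact DFunLike.congr_fun (h.zmod hz _
        (((Pi.evalMonoidHom _ i).comp (MonoidHom.snd _ _)).comp θ)
        fun k => by rw [MonoidHom.comp_apply, hθ, map_one]) x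
  have h2 : commutator (H.map π) = ⊤ := by
    rw [eq_top_iff]
    intro y _
    obtain ⟨x, rfl⟩ := π.subgroupMap_surjective H y
    rw [← Abelianization.ker_of, MonoidHom.mem_ker]
    exact E.injective ((hθ1 x).trans (map_one E).symm)
  rw [← Subgroup.map_subtype_commutator, h2, ← MonoidHom.range_eq_map, Subgroup.range_subtype]

end Pool.Agent.P.MP_488119_gt
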